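import Pool.Agent.CFT.Norm

/-!
# Frobenius elements and the Artin map for characters of degree `p`
-/

namespace CFT

open NumberField IsDedekindDomain WithZero

section Def

variable (K L : Type*) [Field K] [NumberField K] [Field L] [NumberField L] [Algebra K L]

/-- unramified at a place -/
def Unr (w : Pl K) : Prop := ∀ w' : Pl L, bl K L w' = w → w'.asIdeal.ramificationIdx (𝓞 K) = 1

/-- only finitely many places ramify -/
lemma finite_ram : {w : Pl K | ¬ Unr K L w}.Finite := by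
  have h1 : {w' : Pl L | w'.asIdeal ∣ differentIdeal (𝓞 K) (𝓞 L)}.Finite :=
    Ideal.finite_factors differentIdeal_ne_bot
  refine (h1.image (bl K L)).subset ?_
  intro w hw
  simp only [Set.mem_ofPred_eq, Unr, not_forall] at hw
  obtain ⟨w', hw', h⟩ := hw
  refine ⟨w', ?_, hw'⟩
  rw [Set.mem_ofPred_eq, dvd_differentIdeal_iff]
  intro h2
  exact h (Ideal.ramificationIdx_eq_one _ _)

lemma bl_surjective : Function.Surjective (bl K L) := by
  intro p
  obtain ⟨P, hP, h⟩ := Ideal.exists_ideal_over_prime_of_isIntegral_of_isDomain (S := 𝓞 L)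
    p.asIdeal (by simp)
  have hne : P ≠ ⊥ := by
    rintro rfl
    apply p.ne_bot
    rw [← h]
    exact Ideal.comap_bot_of_injective _ (FaithfulSMul.algebraMap_injective _ _)
  exact ⟨⟨P, hP, hne⟩, HeightOneSpectrum.ext h⟩

/-- a chosen place above -/
noncomputable def up (w : Pl K) : Pl L := (bl_surjective K L w).choose

lemma bl_up (w : Pl K) : bl K L (up K L w) = w := (bl_surjective K L w).choose_spec

variable [IsGalois K L]

/-- a Frobenius element at a place above `w` -/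
noncomputable def frob (w : Pl K) : Gal(L/K) :=
  haveI : Finite (𝓞 L ⧸ (up K L w).asIdeal) :=
    Ideal.finiteQuotientOfFreeOfNeBot _ (up K L w).ne_bot
  arithFrobAt (𝓞 K) Gal(L/K) (up K L w).asIdeal

lemma frob_spec (w : Pl K) : IsArithFrobAt (𝓞 K) (frob K L w) (up K L w).asIdeal := by
  have : Finite (𝓞 L ⧸ (up K L w).asIdeal) :=
    Ideal.finiteQuotientOfFreeOfNeBot _ (up K L w).ne_bot
  exact IsArithFrobAt.arithFrobAt (𝓞 K) Gal(L/K) (up K L w).asIdeal

variable {K L}

/-- explicit form of the Frobenius condition -/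
lemma isArithFrobAt_iff (g : Gal(L/K)) (w' : Pl L) :
    IsArithFrobAt (𝓞 K) g w'.asIdeal ↔
      ∀ x : 𝓞 L, g • x - x ^ Ideal.absNorm (bl K L w').asIdeal ∈ w'.asIdeal := by
  rfl

/-- the Artin map attached to a character -/
noncomputable def art {p : ℕ} (θ : Gal(L/K) →* Multiplicative (ZMod p)) : Dv K →+ ZMod p :=
  Finsupp.liftAddHom fun w => zmultiplesHom (ZMod p) (Multiplicative.toAdd (θ (frob K L w)))

lemma art_single {p : ℕ} (θ : Gal(L/K) →* Multiplicative (ZMod p)) (w : Pl K) (n : ℤ) :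
    art θ (Finsupp.single w n) = n * Multiplicative.toAdd (θ (frob K L w)) := by
  rw [art, Finsupp.liftAddHom_apply_single, zmultiplesHom_apply, zsmul_eq_mul]

/-- the inertia group at an unramified place is trivial -/
lemma inertia_eq_bot {w' : Pl L} (hu : Unr K L (bl K L w')) :
    w'.asIdeal.inertia Gal(L/K) = ⊥ := by
  have h1 : Nat.card (w'.asIdeal.inertia Gal(L/K)) = 1 := by
    have : (w'.asIdeal).LiesOver ((bl K L w').asIdeal) := ⟨rfl⟩
    have : Finite (𝓞 K ⧸ (bl K L w').asIdeal) :=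
      Ideal.finiteQuotientOfFreeOfNeBot _ (bl K L w').ne_bot
    have : PerfectField ((bl K L w').asIdeal).ResidueField := by
      infer_instance
    rw [Ideal.card_inertia_eq_ramificationIdxIn (bl K L w').asIdeal w'.asIdeal,
      Ideal.ramificationIdxIn_eq_ramificationIdx (bl K L w').asIdeal w'.asIdeal Gal(L/K)]
    exact hu w' rfl
  exact Subgroup.card_eq_one.mp h1

/-- Frobenius elements at unramified places are unique -/
lemma frob_unique {w' : Pl L} (hu : Unr K L (bl K L w')) {g g' : Gal(L/K)}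
    (hg : IsArithFrobAt (𝓞 K) g w'.asIdeal) (hg' : IsArithFrobAt (𝓞 K) g' w'.asIdeal) :
    g = g' := by
  have h := hg.mul_inv_mem_inertia hg'
  rw [inertia_eq_bot hu, Subgroup.mem_bot, mul_inv_eq_one] at h
  exact h

/-- characters do not see the choice of the Frobenius element -/
lemma theta_eq_of_isArithFrobAt {p : ℕ} (θ : Gal(L/K) →* Multiplicative (ZMod p)) {w' : Pl L}
    (hu : Unr K L (bl K L w')) {g : Gal(L/K)} (hg : IsArithFrobAt (𝓞 K) g w'.asIdeal) :
    θ g = θ (frob K L (bl K L w')) := by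
  have : Finite (𝓞 L ⧸ w'.asIdeal) :=
    Ideal.finiteQuotientOfFreeOfNeBot _ w'.ne_bot
  have : Finite (𝓞 L ⧸ (up K L (bl K L w')).asIdeal) :=
    Ideal.finiteQuotientOfFreeOfNeBot _ (up K L (bl K L w')).ne_bot
  have h1 : g = arithFrobAt (𝓞 K) Gal(L/K) w'.asIdeal :=
    frob_unique hu hg (IsArithFrobAt.arithFrobAt (𝓞 K) Gal(L/K) w'.asIdeal)
  have h2 : IsConj (arithFrobAt (𝓞 K) Gal(L/K) w'.asIdeal)
      (arithFrobAt (𝓞 K) Gal(L/K) (up K L (bl K L w')).asIdeal) := by
    refine isConj_arithFrobAt (𝓞 K) Gal(L/K) w'.asIdeal (up K L (bl K L w')).asIdeal ?_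
    exact congrArg HeightOneSpectrum.asIdeal (bl_up K L (bl K L w')).symm
  rw [h1]
  exact isConj_iff_eq.mp (θ.map_isConj h2)

/-- unramified places with trivial Frobenius have residue degree one -/
lemma inertiaDeg_eq_one {p : ℕ} (θ : Gal(L/K) →* Multiplicative (ZMod p))
    (M : IntermediateField K L) (hM : ∀ g : Gal(L/K), θ g = 1 ↔ g ∈ M.fixingSubgroup) (v : Pl K)
    (hθ : θ (frob K L v) = 1) (hv : Unr K L v) (v' : Pl M) (hv' : bl K M v' = v) :
    v'.asIdeal.inertiaDeg (𝓞 K) = 1 := by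
  obtain ⟨w', hw'⟩ := bl_surjective M L v'
  have hbl : bl K L w' = v := by
    rw [← bl_bl K M L w', hw', hv']
  have : Finite (𝓞 L ⧸ w'.asIdeal) :=
    Ideal.finiteQuotientOfFreeOfNeBot _ w'.ne_bot
  have hg : IsArithFrobAt (𝓞 K) (arithFrobAt (𝓞 K) Gal(L/K) w'.asIdeal) w'.asIdeal :=
    IsArithFrobAt.arithFrobAt (𝓞 K) Gal(L/K) w'.asIdeal
  set g := arithFrobAt (𝓞 K) Gal(L/K) w'.asIdeal
  have h1 : θ g = 1 := by
    rw [theta_eq_of_isArithFrobAt θ (by rw [hbl]; exact hv) hg, hbl, hθ]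
  rw [hM] at h1
  rw [isArithFrobAt_iff, hbl] at hg
  have h2 : ∀ x : 𝓞 M, x ^ Ideal.absNorm v.asIdeal - x ∈ v'.asIdeal := by
    intro x
    have h3 := hg (algebraMap (𝓞 M) (𝓞 L) x)
    have h4 : g • (algebraMap (𝓞 M) (𝓞 L) x) = algebraMap (𝓞 M) (𝓞 L) x := by
      apply RingOfIntegers.ext
      exact h1 ⟨_, (x : M).2⟩
    rw [h4, ← map_pow, ← map_sub] at h3
    have h5 : x - x ^ Ideal.absNorm v.asIdeal ∈ v'.asIdeal := by
      rw [← hw']
      exact h3
    have := v'.asIdeal.neg_mem h5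
    rwa [neg_sub] at this
  have : v'.asIdeal.IsMaximal := v'.isMaximal
  let _ : Field (𝓞 M ⧸ v'.asIdeal) := Ideal.Quotient.field _
  have : Finite (𝓞 M ⧸ v'.asIdeal) :=
    Ideal.finiteQuotientOfFreeOfNeBot _ v'.ne_bot
  have hq1 : 1 < Ideal.absNorm v.asIdeal := by
    have h0 : Ideal.absNorm v.asIdeal ≠ 0 := by
      rw [Ne, Ideal.absNorm_eq_zero_iff]
      exact v.ne_bot
    have h1 : Ideal.absNorm v.asIdeal ≠ 1 := by
      rw [Ne, Ideal.absNorm_eq_one_iff]
      exact v.isPrime.ne_top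
    omega
  have h6 : Nat.card (𝓞 M ⧸ v'.asIdeal) ≤ Ideal.absNorm v.asIdeal := by
    classical
    set q := Ideal.absNorm v.asIdeal
    cases nonempty_fintype (𝓞 M ⧸ v'.asIdeal)
    have h7 : (Finset.univ : Finset (𝓞 M ⧸ v'.asIdeal)) ⊆
        (Polynomial.X ^ q - Polynomial.X : Polynomial (𝓞 M ⧸ v'.asIdeal)).roots.toFinset := by
      intro y _
      rw [Multiset.mem_toFinset, Polynomial.mem_roots
        (FiniteField.X_pow_card_sub_X_ne_zero _ hq1)]
      obtain ⟨x, rfl⟩ := Ideal.Quotient.mk_surjective y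
      simp only [Polynomial.IsRoot, Polynomial.eval_sub, Polynomial.eval_pow, Polynomial.eval_X]
      rw [← map_pow, ← map_sub]
      exact Ideal.Quotient.eq_zero_iff_mem.mpr (h2 x)
    rw [Nat.card_eq_fintype_card, ← Finset.card_univ]
    refine (Finset.card_le_card h7).trans ((Multiset.toFinset_card_le _).trans ?_)
    refine (Polynomial.card_roots' _).trans ?_
    rw [FiniteField.X_pow_card_sub_X_natDegree_eq _ hq1]
  have h8 : Ideal.absNorm v.asIdeal ^ v'.asIdeal.inertiaDeg (𝓞 K) = Ideal.absNorm v'.asIdeal := by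
    have : (v'.asIdeal).LiesOver v.asIdeal := ⟨by rw [← hv']; rfl⟩
    exact Ideal.absNorm_pow_inertiaDeg v.asIdeal v'.asIdeal
  have h9 : Ideal.absNorm v'.asIdeal ≤ Ideal.absNorm v.asIdeal := h6
  rw [← h8] at h9
  have h10 : v'.asIdeal.inertiaDeg (𝓞 K) ≤ 1 := by
    by_contra hcon
    push Not at hcon
    have := Nat.pow_lt_pow_right hq1 hcon
    rw [pow_one] at this
    omega
  have h11 : 0 < v'.asIdeal.inertiaDeg (𝓞 K) := Ideal.inertiaDeg_pos _ _
  omega

end Def

section Tower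

variable (K E L Ω : Type*) [Field K] [NumberField K] [Field E] [NumberField E] [Field L]
  [NumberField L] [Field Ω] [NumberField Ω] [Algebra K E] [Algebra K L] [Algebra K Ω]
  [Algebra E Ω] [Algebra L Ω] [IsScalarTower K E Ω] [IsScalarTower K L Ω]
  [IsGalois K L] [IsGalois E Ω]

/-- restriction of Galois groups -/
noncomputable def rs : Gal(Ω/E) →* Gal(L/K) :=
  (AlgEquiv.restrictNormalHom (F := K) (K₁ := Ω) L).comp
    { toFun := fun g => AlgEquiv.restrictScalars K g
      map_one' := by ext; rfl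
      map_mul' := fun _ _ => by ext; rfl }

lemma rs_apply (g : Gal(Ω/E)) (x : L) :
    algebraMap L Ω (rs K E L Ω g x) = g (algebraMap L Ω x) := by
  rw [rs, MonoidHom.comp_apply]
  exact AlgEquiv.restrictNormal_commutes (AlgEquiv.restrictScalars K g) L x

omit [IsGalois K L] in
variable {K L} in
/-- powers of a Frobenius element -/
lemma frob_pow {g : Gal(L/K)} {w' : Pl L} (hg : ∀ x : 𝓞 L,
    g • x - x ^ Ideal.absNorm (bl K L w').asIdeal ∈ w'.asIdeal) (n : ℕ)
    (x : 𝓞 L) : (g ^ n) • x - x ^ (Ideal.absNorm (bl K L w').asIdeal ^ n) ∈ w'.asIdeal := by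
  induction n with
  | zero => simp
  | succ n ih =>
    have h1 := hg ((g ^ n) • x)
    have h2 : ((g ^ n) • x) ^ Ideal.absNorm (bl K L w').asIdeal -
        (x ^ (Ideal.absNorm (bl K L w').asIdeal ^ n)) ^ Ideal.absNorm (bl K L w').asIdeal ∈
          w'.asIdeal :=
      w'.asIdeal.mem_of_dvd (sub_dvd_pow_sub_pow _ _ _) ih
    have h3 := w'.asIdeal.add_mem h1 h2
    rw [sub_add_sub_cancel, ← pow_mul, ← pow_succ, ← mul_smul, ← pow_succ'] at h3
    exact h3

/-- Functoriality: a Frobenius element over `E` restricts to a power of Frobenius over `K`. -/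
lemma theta_rs {p : ℕ} (θ : Gal(L/K) →* Multiplicative (ZMod p)) {v : Pl Ω}
    (hu : Unr K L (bl K L (bl L Ω v))) {g : Gal(Ω/E)} (hg : IsArithFrobAt (𝓞 E) g v.asIdeal) :
    θ (rs K E L Ω g) = θ (frob K L (bl K E (bl E Ω v))) ^
      (bl E Ω v).asIdeal.inertiaDeg (𝓞 K) := by
  set w : Pl L := bl L Ω v with hw
  set f := (bl E Ω v).asIdeal.inertiaDeg (𝓞 K) with hf
  have hbl : bl K E (bl E Ω v) = bl K L w := by
    rw [bl_bl K E Ω, hw, bl_bl K L Ω]
  have : Finite (𝓞 L ⧸ w.asIdeal) := Ideal.finiteQuotientOfFreeOfNeBot _ w.ne_bot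
  have h0 : IsArithFrobAt (𝓞 K) (arithFrobAt (𝓞 K) Gal(L/K) w.asIdeal) w.asIdeal :=
    IsArithFrobAt.arithFrobAt (𝓞 K) Gal(L/K) w.asIdeal
  set g0 := arithFrobAt (𝓞 K) Gal(L/K) w.asIdeal
  have hnorm : Ideal.absNorm (bl E Ω v).asIdeal = Ideal.absNorm (bl K L w).asIdeal ^ f := by
    rw [← hbl]
    have : ((bl E Ω v).asIdeal).LiesOver (bl K E (bl E Ω v)).asIdeal := ⟨rfl⟩
    exact (Ideal.absNorm_pow_inertiaDeg (bl K E (bl E Ω v)).asIdeal (bl E Ω v).asIdeal).symm
  have h1 : ∀ x : 𝓞 L, (rs K E L Ω g) • x - x ^ (Ideal.absNorm (bl K L w).asIdeal ^ f) ∈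
      w.asIdeal := by
    intro x
    have h2 := (isArithFrobAt_iff g v).mp hg (algebraMap (𝓞 L) (𝓞 Ω) x)
    have h3 : g • (algebraMap (𝓞 L) (𝓞 Ω) x) = algebraMap (𝓞 L) (𝓞 Ω) ((rs K E L Ω g) • x) := by
      apply RingOfIntegers.ext
      exact (rs_apply K E L Ω g x).symm
    rw [h3, hnorm, ← map_pow, ← map_sub] at h2
    exact h2
  have h2 : rs K E L Ω g = g0 ^ f := by
    have h3 : (rs K E L Ω g) * (g0 ^ f)⁻¹ ∈ w.asIdeal.inertia Gal(L/K) := by
      intro x
      have h4 := h1 ((g0 ^ f)⁻¹ • x)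
      have h5 := frob_pow ((isArithFrobAt_iff g0 w).mp h0) f ((g0 ^ f)⁻¹ • x)
      have h6 := sub_mem h4 h5
      rw [sub_sub_sub_cancel_right, smul_inv_smul, ← mul_smul] at h6
      exact h6
    rw [inertia_eq_bot hu, Subgroup.mem_bot, mul_inv_eq_one] at h3
    exact h3
  rw [h2, map_pow, hbl, theta_eq_of_isArithFrobAt θ hu h0]

/-- the Artin map of a restricted character is the Artin map of the norm -/
theorem art_rs {p : ℕ} (θ : Gal(L/K) →* Multiplicative (ZMod p)) (d : Dv E)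
    (hd : ∀ v, d v ≠ 0 → Unr K L (bl K E v)) :
    art (θ.comp (rs K E L Ω)) d = art θ (nm K E d) := by
  have key : ∀ v : Pl E, Unr K L (bl K E v) → ∀ n : ℤ,
      art (θ.comp (rs K E L Ω)) (Finsupp.single v n) = art θ (nm K E (Finsupp.single v n)) := by
    intro v hv n
    have h1 : bl K L (bl L Ω (up E Ω v)) = bl K E v := by
      rw [bl_bl K L Ω, ← bl_bl K E Ω, bl_up]
    have h2 := theta_rs K E L Ω θ (v := up E Ω v) (by rw [h1]; exact hv) (frob_spec E Ω v)
    rw [bl_up] at h2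
    rw [nm_single, art_single, art_single, MonoidHom.comp_apply, h2]
    simp only [toAdd_pow, nsmul_eq_mul, Int.cast_mul, Int.cast_natCast]
    ring
  have h3 : d = ∑ v ∈ d.support, Finsupp.single v (d v) := (Finsupp.sum_single d).symm
  rw [h3, map_sum, map_sum, map_sum]
  refine Finset.sum_congr rfl fun v hv => ?_
  exact key v (hd v (Finsupp.mem_support_iff.mp hv)) _

end Tower

end CFT
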