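import Pool.Agent.CFT.Basic

/-!
# Norms and conorms of divisors
-/

namespace CFT

open NumberField IsDedekindDomain WithZero

section Two

variable (K L : Type*) [Field K] [NumberField K] [Field L] [NumberField L] [Algebra K L]

/-- the place below -/
noncomputable abbrev bl (w' : Pl L) : Pl K := HeightOneSpectrum.under (𝓞 K) w'

/-- the places above a set of places -/
def ab (T : Set (Pl K)) : Set (Pl L) := {w' | bl K L w' ∈ T}

/-- the norm of divisors -/
noncomputable def nm : Dv L →+ Dv K :=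
  Finsupp.liftAddHom fun w' : Pl L =>
    ((w'.asIdeal.inertiaDeg (𝓞 K) : ℤ)) • Finsupp.singleAddHom (bl K L w')

lemma nm_single (w' : Pl L) (n : ℤ) :
    nm K L (Finsupp.single w' n)
      = Finsupp.single (bl K L w') (n * (w'.asIdeal.inertiaDeg (𝓞 K) : ℤ)) := by
  rw [nm, Finsupp.liftAddHom_apply_single]
  simp [mul_comm]

/-- the conorm of divisors -/
noncomputable def cn : Dv K →+ Dv L :=
  Finsupp.liftAddHom fun w : Pl K =>
    ((zmultiplesHom (Dv L)) (di (w.asIdeal.map (algebraMap (𝓞 K) (𝓞 L)))))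

open Classical in
lemma di_apply' {I : Ideal (𝓞 K)} (hI : I ≠ ⊥) (w : Pl K) :
    di I w = ((UniqueFactorizationMonoid.normalizedFactors I).count w.asIdeal : ℤ) := by
  rw [di, dif_neg hI]
  rw [← Ideal.count_associates_factors_eq hI w.isPrime w.ne_bot]
  rfl

variable {K} in
lemma map_ne_bot {I : Ideal (𝓞 K)} (hI : I ≠ ⊥) : I.map (algebraMap (𝓞 K) (𝓞 L)) ≠ ⊥ :=
  Ideal.map_ne_bot_of_ne_bot hI

instance bl_liesOver (w' : Pl L) : w'.asIdeal.LiesOver (bl K L w').asIdeal :=
  ⟨rfl⟩

lemma eq_bl_of_liesOver (w' : Pl L) (w : Pl K) [h : w'.asIdeal.LiesOver w.asIdeal] :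
    bl K L w' = w := by
  ext1
  exact h.over.symm

open Classical in
lemma di_map_apply (w : Pl K) (w' : Pl L) :
    di (w.asIdeal.map (algebraMap (𝓞 K) (𝓞 L))) w'
      = if w = bl K L w' then (w'.asIdeal.ramificationIdx (𝓞 K) : ℤ) else 0 := by
  have hne : w.asIdeal.map (algebraMap (𝓞 K) (𝓞 L)) ≠ ⊥ := map_ne_bot L w.ne_bot
  split_ifs with h
  · subst h
    rw [di_apply' _ hne,
      Ideal.IsDedekindDomain.ramificationIdx_eq_normalizedFactors_count (bl K L w').asIdeal _ hne]
  · by_contra hc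
    have h0 := di_nonneg (w.asIdeal.map (algebraMap (𝓞 K) (𝓞 L))) w'
    have h1 : 0 < di (w.asIdeal.map (algebraMap (𝓞 K) (𝓞 L))) w' := lt_of_le_of_ne h0 (Ne.symm hc)
    rw [di_pos_iff hne] at h1
    have h2 := (Ideal.liesOver_iff_dvd_map w'.isPrime.ne_top).2 h1
    exact h (eq_bl_of_liesOver K L w' w).symm

lemma cn_single (w : Pl K) (n : ℤ) :
    cn K L (Finsupp.single w n) = n • di (w.asIdeal.map (algebraMap (𝓞 K) (𝓞 L))) := by
  rw [cn, Finsupp.liftAddHom_apply_single]
  simp

lemma cn_apply (d : Dv K) (w' : Pl L) :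
    cn K L d w' = d (bl K L w') * (w'.asIdeal.ramificationIdx (𝓞 K) : ℤ) := by
  classical
  induction d using Finsupp.induction_linear with
  | zero => simp
  | add f g hf hg => rw [map_add, Finsupp.add_apply, hf, hg, Finsupp.add_apply, add_mul]
  | single w n =>
    rw [cn_single, Finsupp.smul_apply, di_map_apply, Finsupp.single_apply, smul_eq_mul]
    split_ifs with h
    · rfl
    · simp

variable {K L}

/-- the norm of elements -/
noncomputable abbrev nu : Additive Lˣ →+ Additive Kˣ :=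
  MonoidHom.toAdditive (Units.map (Algebra.norm K))

lemma di_top : di (⊤ : Ideal (𝓞 K)) = 0 := by
  have h := di_mul (K := K) (I := ⊤) (J := ⊤) top_ne_bot top_ne_bot
  rw [← Ideal.one_eq_top, mul_one] at h
  rw [← Ideal.one_eq_top]
  exact left_eq_add.1 h

lemma relNorm_place (w : Pl L) :
    Ideal.relNorm (𝓞 K) w.asIdeal = (bl K L w).asIdeal ^ w.asIdeal.inertiaDeg (𝓞 K) := by
  have := bl_liesOver K L w
  exact Ideal.relNorm_eq_pow_of_isMaximal w.asIdeal (bl K L w).asIdeal

lemma nm_di {I : Ideal (𝓞 L)} (hI : I ≠ ⊥) :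
    nm K L (di I) = di (Ideal.relNorm (𝓞 K) I) := by
  induction I using UniqueFactorizationMonoid.induction_on_prime with
  | h₁ => exact absurd rfl hI
  | h₂ x hx =>
    rw [Ideal.isUnit_iff] at hx
    subst hx
    rw [Ideal.relNorm_top, di_top, di_top, map_zero]
  | h₃ a p ha hp ih =>
    have hp0 : p ≠ ⊥ := hp.ne_zero
    rw [di_mul hp0 ha, map_add, map_mul, di_mul (by simpa using hp0) (by simpa using ha), ih ha]
    congr 1
    have hp1 : p.IsPrime := Ideal.isPrime_of_prime hp
    let w : Pl L := ⟨p, hp1, hp0⟩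
    have : p = w.asIdeal := rfl
    rw [this, di_prime, nm_single, relNorm_place,
      di_pow (bl K L w).ne_bot, di_prime]
    simp

/-- norms of principal divisors -/
lemma nm_dv_int {a : 𝓞 L} (ha : a ≠ 0) :
    nm K L (dv (Additive.ofMul (Units.mk0 (a : L) (RingOfIntegers.coe_ne_zero_iff.2 ha))))
      = dv (nu (Additive.ofMul (Units.mk0 (a : L) (RingOfIntegers.coe_ne_zero_iff.2 ha)))) := by
  have hI : Ideal.span {a} ≠ ⊥ := by simpa using ha
  have hn : Algebra.intNorm (𝓞 K) (𝓞 L) a ≠ 0 := by simpa using ha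
  rw [← di_span ha, nm_di hI, Ideal.relNorm_singleton, di_span hn]
  congr 2
  ext
  exact Algebra.algebraMap_intNorm (K := K) (L := L) a

lemma nm_dv (x : Additive Lˣ) : nm K L (dv x) = dv (nu x) := by
  obtain ⟨a, b, hb, hab⟩ := IsFractionRing.div_surjective (A := 𝓞 L) ((x.toMul : Lˣ) : L)
  have hb0 : b ≠ 0 := nonZeroDivisors.ne_zero hb
  have ha0 : a ≠ 0 := by
    rintro rfl
    rw [map_zero, zero_div] at hab
    exact (Units.ne_zero x.toMul) hab.symm
  have hx : x = Additive.ofMul (Units.mk0 (a : L) (RingOfIntegers.coe_ne_zero_iff.2 ha0))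
      - Additive.ofMul (Units.mk0 (b : L) (RingOfIntegers.coe_ne_zero_iff.2 hb0)) := by
    apply Additive.toMul.injective
    ext
    rw [← hab]
    simp
  rw [hx, map_sub, map_sub, nm_dv_int ha0, nm_dv_int hb0, map_sub, map_sub]

lemma nm_cn (d : Dv K) : nm K L (cn K L d) = (Module.finrank K L : ℤ) • d := by
  classical
  induction d using Finsupp.induction_linear with
  | zero => simp
  | add f g hf hg => rw [map_add, map_add, hf, hg, smul_add]
  | single w n =>
    rw [cn_single, map_zsmul, nm_di (map_ne_bot L w.ne_bot), Ideal.relNorm_algebraMap, di_pow w.ne_bot,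
      di_prime, ← IsFractionRing.finrank_eq (𝓞 K) K (𝓞 L) L]
    simp [mul_comm]

lemma nm_apply_eq_zero {d : Dv L} {w : Pl K} (h : ∀ w', bl K L w' = w → d w' = 0) :
    nm K L d w = 0 := by
  classical
  rw [nm, Finsupp.liftAddHom_apply, Finsupp.sum_apply]
  refine Finset.sum_eq_zero fun w' _ => ?_
  simp only [AddMonoidHom.smul_apply, Finsupp.singleAddHom_apply, Finsupp.smul_apply,
    Finsupp.single_apply]
  split_ifs with hw
  · rw [h w' hw, smul_zero]
  · rw [smul_zero]

lemma nm_DT (T : Set (Pl K)) {d : Dv L} (hd : d ∈ DT (ab K L T)) : nm K L d ∈ DT T := by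
  intro w hw
  refine nm_apply_eq_zero fun w' hw' => hd w' ?_
  rw [← hw'] at hw
  exact hw

section Emb

variable (K L)
variable {M : Type*} [Field M] [NumberField M] [Algebra K M]

/-- `v (y) = w(y) ^ e` for places -/
lemma val_bl_pow (v : Pl M) : ∃ e : ℕ, e ≠ 0 ∧ ∀ y : K,
    (bl K M v).valuation K y ^ e = v.valuation M (algebraMap K M y) := by
  have := bl_liesOver K M v
  refine ⟨(bl K M v).asIdeal.ramificationIdx' v.asIdeal,
    Ideal.IsDedekindDomain.ramificationIdx'_ne_zero_of_liesOver v.asIdeal (bl K M v).ne_bot,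
    fun y => HeightOneSpectrum.valuation_liesOver M (bl K M v) v y⟩

lemma val_bl_lt_one (v : Pl M) (y : K) :
    (bl K M v).valuation K y < 1 ↔ v.valuation M (algebraMap K M y) < 1 := by
  obtain ⟨e, he, h⟩ := val_bl_pow K v
  rw [← h]
  constructor
  · intro h1
    exact pow_lt_one' h1 he
  · intro h1
    by_contra hc
    exact absurd h1 (not_lt.2 (one_le_pow_of_one_le' (not_lt.1 hc) e))

variable {K L}

lemma val_emb_lt_one (τ : L →ₐ[K] M) (v : Pl M) {x : L}
    (hx : ∀ w' : Pl L, bl K L w' = bl K M v → w'.valuation L x < 1) :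
    v.valuation M (τ x) < 1 := by
  let : Algebra L M := τ.toRingHom.toAlgebra
  have : IsScalarTower K L M := IsScalarTower.of_algebraMap_eq' τ.comp_algebraMap.symm
  have h1 : bl K L (bl L M v) = bl K M v := by
    ext1
    exact Ideal.under_under v.asIdeal
  exact (val_bl_lt_one L v x).1 (hx _ h1)

end Emb

lemma exists_bl_eq (K M : Type*) [Field K] [NumberField K] [Field M] [NumberField M] [Algebra K M]
    (w : Pl K) : ∃ v : Pl M, bl K M v = w := by
  obtain ⟨P, hP, h⟩ := w.asIdeal.exists_ideal_over_prime_of_isIntegral_of_isDomain (S := 𝓞 M)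
    (by simp)
  refine ⟨⟨P, hP, ?_⟩, ?_⟩
  · rintro rfl
    apply w.ne_bot
    rw [← h]
    simp
  · ext1
    exact h

lemma nu_KT (T : Set (Pl K)) {x : Additive Lˣ} (hx : x ∈ KT (ab K L T)) : nu x ∈ KT T := by
  intro w hw
  let Ω := AlgebraicClosure L
  let M := IntermediateField.normalClosure K L Ω
  have : NumberField M := NumberField.of_module_finite K M
  obtain ⟨v, hv⟩ := exists_bl_eq K M w
  subst hv
  rw [val_bl_lt_one K v]
  have h1 : ∀ τ : L →ₐ[K] M, v.valuation M (τ (x.toMul : L) - 1) < 1 := by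
    intro τ
    have := val_emb_lt_one τ v (x := (x.toMul : L) - 1) (by
      intro w' hw'
      refine hx w' ?_
      rw [← hw'] at hw
      exact hw)
    rwa [map_sub, map_one] at this
  have h2 : algebraMap K M (Algebra.norm K (x.toMul : L)) = ∏ τ : L →ₐ[K] M, τ (x.toMul : L) := by
    apply (algebraMap M Ω).injective
    rw [← IsScalarTower.algebraMap_apply, Algebra.norm_eq_prod_embeddings K Ω, map_prod]
    refine (Fintype.prod_equiv (normalClosure.algHomEquiv K L Ω) _ _ ?_).symm
    intro τ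
    rfl
  have h3 : (∑ τ : L →ₐ[K] M, Additive.ofMul (Units.map (τ : L →* M) x.toMul)) ∈
      KT ({v} : Set (Pl M)) := by
    refine AddSubgroup.sum_mem _ fun τ _ => ?_
    intro v' hv'
    rw [Set.mem_singleton_iff] at hv'
    subst hv'
    exact h1 τ
  have h4 := h3 v (Set.mem_singleton v)
  rw [toMul_sum] at h4
  rw [map_sub, map_one]
  convert h4 using 3
  show algebraMap K M (Algebra.norm K (x.toMul : L)) = _
  rw [h2, Units.coe_prod]
  rfl

lemma nm_PT (T : Set (Pl K)) {d : Dv L} (hd : d ∈ PT (ab K L T)) : nm K L d ∈ PT T := by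
  obtain ⟨x, hx, rfl⟩ := hd
  rw [nm_dv]
  exact ⟨_, nu_KT T hx, rfl⟩

end Two

section Three

variable (K E L : Type*) [Field K] [NumberField K] [Field E] [NumberField E] [Field L]
  [NumberField L] [Algebra K E] [Algebra E L] [Algebra K L] [IsScalarTower K E L]

lemma bl_bl (w : Pl L) : bl K E (bl E L w) = bl K L w := by
  ext1
  exact Ideal.under_under w.asIdeal

lemma inertiaDeg_mul (w : Pl L) : (bl E L w).asIdeal.inertiaDeg (𝓞 K) * w.asIdeal.inertiaDeg (𝓞 E)
    = w.asIdeal.inertiaDeg (𝓞 K) :=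
  (Ideal.inertiaDeg_tower (bl E L w).asIdeal w.asIdeal).symm

lemma nm_nm (d : Dv L) : nm K E (nm E L d) = nm K L d := by
  classical
  induction d using Finsupp.induction_linear with
  | zero => simp
  | add f g hf hg => rw [map_add, map_add, map_add, hf, hg]
  | single w n =>
    rw [nm_single, nm_single, nm_single, bl_bl, ← inertiaDeg_mul K E L w]
    push_cast
    congr 1
    ring

end Three

section Norms

variable (K L : Type*) [Field K] [NumberField K] [Field L] [NumberField L] [Algebra K L]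

/-- the norm subgroup `P_T + N(D^T(L))` -/
noncomputable def HT (T : Set (Pl K)) : AddSubgroup (Dv K) :=
  PT T ⊔ (DT (ab K L T)).map (nm K L)

lemma HT_le_DT (T : Set (Pl K)) : HT K L T ≤ DT T := by
  refine sup_le (PT_le_DT T) ?_
  rintro _ ⟨d, hd, rfl⟩
  exact nm_DT T hd

variable {K L}

lemma PT_le_HT (T : Set (Pl K)) : PT T ≤ HT K L T := le_sup_left

lemma nm_mem_HT {T : Set (Pl K)} {d : Dv L} (hd : d ∈ DT (ab K L T)) : nm K L d ∈ HT K L T :=
  AddSubgroup.mem_sup_right ⟨d, hd, rfl⟩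

lemma cn_DT (T : Set (Pl K)) {d : Dv K} (hd : d ∈ DT T) : cn K L d ∈ DT (ab K L T) := by
  intro w' hw'
  rw [cn_apply, hd _ hw', zero_mul]

lemma finrank_smul_mem_HT {T : Set (Pl K)} {d : Dv K} (hd : d ∈ DT T) :
    (Module.finrank K L : ℤ) • d ∈ HT K L T := by
  rw [← nm_cn]
  exact nm_mem_HT (cn_DT T hd)

lemma single_mem_DT {T : Set (Pl K)} {w : Pl K} (hw : w ∉ T) (n : ℤ) :
    Finsupp.single w n ∈ DT T := by
  classical
  intro v hv
  rw [Finsupp.single_apply, if_neg]
  rintro rfl
  exact hw hv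

lemma single_mem_HT {T : Set (Pl K)} {w' : Pl L} (hw : bl K L w' ∉ T)
    (hf : w'.asIdeal.inertiaDeg (𝓞 K) = 1) (n : ℤ) :
    Finsupp.single (bl K L w') n ∈ HT K L T := by
  have h := nm_single K L w' n
  rw [hf, Nat.cast_one, mul_one] at h
  rw [← h]
  exact nm_mem_HT (single_mem_DT (T := ab K L T) hw n)

end Norms

end CFT
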