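import Mathlib

/-!
# Divisors of number fields: definitions and basic properties

Class field theory for cyclic extensions of odd prime degree (Artin reciprocity).
-/

namespace CFT

open NumberField IsDedekindDomain WithZero

/-- finite places -/
abbrev Pl (K : Type*) [Field K] [NumberField K] := HeightOneSpectrum (𝓞 K)

/-- divisors -/
abbrev Dv (K : Type*) [Field K] [NumberField K] := Pl K →₀ ℤ

section One

variable {K : Type*} [Field K] [NumberField K]

/-- the order of an element at a place -/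
noncomputable def ord (w : Pl K) (x : Kˣ) : ℤ := -(Multiplicative.toAdd (w.valuationOfNeZero x))

lemma val_eq (w : Pl K) (x : Kˣ) : w.valuation K (x : K) = exp (-(ord w x)) := by
  rw [← w.valuationOfNeZero_eq, ord, neg_neg]
  rfl

lemma ord_one (w : Pl K) : ord w 1 = 0 := by simp [ord]

lemma ord_mul (w : Pl K) (x y : Kˣ) : ord w (x * y) = ord w x + ord w y := by
  simp only [ord, map_mul, toAdd_mul]; ring

lemma ord_inv (w : Pl K) (x : Kˣ) : ord w x⁻¹ = - ord w x := by
  simp only [ord, map_inv, toAdd_inv]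

lemma ord_eq_zero_iff (w : Pl K) (x : Kˣ) : ord w x = 0 ↔ w.valuation K (x : K) = 1 := by
  rw [val_eq, ← exp_zero, exp_inj, neg_eq_zero]

lemma ord_nonneg_iff (w : Pl K) (x : Kˣ) : 0 ≤ ord w x ↔ w.valuation K (x : K) ≤ 1 := by
  rw [val_eq, ← exp_zero, exp_le_exp, neg_nonpos]

/-- only finitely many places occur -/
lemma finite_ord (x : Kˣ) : {w : Pl K | ord w x ≠ 0}.Finite := by
  have h1 := HeightOneSpectrum.Support.finite (𝓞 K) (x : K)
  have h2 := HeightOneSpectrum.Support.finite (𝓞 K) ((x⁻¹ : Kˣ) : K)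
  refine (h1.union h2).subset ?_
  intro w hw
  rcases lt_or_gt_of_ne (show ord w x ≠ 0 from hw) with h | h
  · left
    change 1 < w.valuation K (x : K)
    rw [← not_le, ← ord_nonneg_iff]
    omega
  · right
    change 1 < w.valuation K ((x⁻¹ : Kˣ) : K)
    rw [← not_le, ← ord_nonneg_iff, ord_inv]
    omega

/-- the divisor of an element -/
noncomputable def dv : Additive Kˣ →+ Dv K where
  toFun x := Finsupp.ofSupportFinite (fun w => ord w x.toMul) (finite_ord x.toMul)
  map_zero' := by
    ext w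
    exact ord_one w
  map_add' x y := by
    ext w
    exact ord_mul w _ _

lemma dv_apply (x : Additive Kˣ) (w : Pl K) : dv x w = ord w x.toMul := rfl

/-- divisors prime to a set of places -/
def DT (T : Set (Pl K)) : AddSubgroup (Dv K) where
  carrier := {d | ∀ w ∈ T, d w = 0}
  zero_mem' := fun _ _ => rfl
  add_mem' := by
    intro a b ha hb w hw
    rw [Finsupp.add_apply, ha w hw, hb w hw, add_zero]
  neg_mem' := by
    intro a ha w hw
    rw [Finsupp.neg_apply, ha w hw, neg_zero]

lemma mem_DT {T : Set (Pl K)} {d : Dv K} : d ∈ DT T ↔ ∀ w ∈ T, d w = 0 := Iff.rfl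

lemma val_eq_one_of_sub_lt {w : Pl K} {x : K} (h : w.valuation K (x - 1) < 1) :
    w.valuation K x = 1 := by
  have h1 : x = (x - 1) + 1 := by ring
  rw [h1, Valuation.map_add_eq_of_lt_right _ (by rwa [map_one]), map_one]

/-- elements congruent to one modulo the places of `T` -/
def KT (T : Set (Pl K)) : AddSubgroup (Additive Kˣ) where
  carrier := {x | ∀ w ∈ T, w.valuation K ((x.toMul : Kˣ) - 1 : K) < 1}
  zero_mem' := by
    intro w _
    simp
  add_mem' := by
    intro a b ha hb w hw
    have h1 := ha w hw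
    have h2 := hb w hw
    have h3 : (((a + b).toMul : Kˣ) - 1 : K)
        = (a.toMul : Kˣ) * (((b.toMul : Kˣ) : K) - 1) + (((a.toMul : Kˣ) : K) - 1) := by
      simp only [toMul_add, Units.val_mul]
      ring
    rw [h3]
    refine (Valuation.map_add _ _ _).trans_lt (max_lt ?_ h1)
    rw [map_mul, val_eq_one_of_sub_lt h1, one_mul]
    exact h2
  neg_mem' := by
    intro a ha w hw
    have h1 := ha w hw
    have h3 : (((-a).toMul : Kˣ) - 1 : K)
        = - ((((a.toMul : Kˣ) : K) - 1) / (a.toMul : Kˣ)) := by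
      have : ((a.toMul : Kˣ) : K) ≠ 0 := Units.ne_zero _
      simp only [toMul_neg, Units.val_inv_eq_inv_val]
      field_simp
      ring
    rw [h3, Valuation.map_neg, map_div₀, val_eq_one_of_sub_lt h1, div_one]
    exact h1

lemma mem_KT {T : Set (Pl K)} {x : Additive Kˣ} :
    x ∈ KT T ↔ ∀ w ∈ T, w.valuation K ((x.toMul : Kˣ) - 1 : K) < 1 := Iff.rfl

/-- principal divisors of elements congruent to one modulo the places of `T` -/
noncomputable def PT (T : Set (Pl K)) : AddSubgroup (Dv K) := (KT T).map dv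

lemma PT_le_DT (T : Set (Pl K)) : PT T ≤ DT T := by
  rintro _ ⟨x, hx, rfl⟩ w hw
  rw [dv_apply, ord_eq_zero_iff]
  exact val_eq_one_of_sub_lt (hx w hw)

lemma KT_mono {T T' : Set (Pl K)} (h : T ⊆ T') : KT T' ≤ KT T := fun _ hx w hw => hx w (h hw)

lemma DT_mono {T T' : Set (Pl K)} (h : T ⊆ T') : DT T' ≤ DT T := fun _ hx w hw => hx w (h hw)

lemma PT_mono {T T' : Set (Pl K)} (h : T ⊆ T') : PT T' ≤ PT T :=
  AddSubgroup.map_mono (KT_mono h)

/-- the divisor of an integral ideal -/
noncomputable def di (I : Ideal (𝓞 K)) : Dv K :=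
  open Classical in
  if h : I = ⊥ then 0 else
    Finsupp.ofSupportFinite
      (fun w => ((Associates.mk w.asIdeal).count (Associates.mk I).factors : ℤ))
      (by
        have := Associates.finite_factors (R := 𝓞 K) h
        rw [Filter.eventually_cofinite] at this
        exact this)

lemma di_bot : di (⊥ : Ideal (𝓞 K)) = 0 := by
  simp [di]

lemma di_apply {I : Ideal (𝓞 K)} (hI : I ≠ ⊥) (w : Pl K) :
    di I w = ((Associates.mk w.asIdeal).count (Associates.mk I).factors : ℤ) := by
  rw [di, dif_neg hI]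
  rfl

lemma di_mul {I J : Ideal (𝓞 K)} (hI : I ≠ ⊥) (hJ : J ≠ ⊥) : di (I * J) = di I + di J := by
  ext w
  have hIJ : I * J ≠ ⊥ := mul_ne_zero hI hJ
  rw [Finsupp.add_apply, di_apply hIJ, di_apply hI, di_apply hJ, ← Associates.mk_mul_mk,
    Associates.count_mul (Associates.mk_ne_zero.mpr hI) (Associates.mk_ne_zero.mpr hJ)
      w.associates_irreducible]
  push_cast
  ring

lemma di_prime (w : Pl K) : di w.asIdeal = Finsupp.single w 1 := by
  ext v
  rw [di_apply w.ne_bot]
  by_cases h : v = w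
  · subst h
    rw [Associates.count_self v.associates_irreducible, Finsupp.single_eq_same]
    rfl
  · rw [Finsupp.single_eq_of_ne h]
    by_contra hne
    have h1 : (Associates.mk v.asIdeal).count (Associates.mk w.asIdeal).factors ≠ 0 := by
      exact_mod_cast hne
    rw [Associates.count_ne_zero_iff_dvd w.ne_bot v.irreducible] at h1
    have h2 : v.asIdeal = w.asIdeal := by
      have h3 := (Prime.dvd_prime_iff_associated v.prime w.prime).1 h1
      exact associated_iff_eq.1 h3
    exact h (HeightOneSpectrum.ext h2)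

lemma di_nonneg (I : Ideal (𝓞 K)) (w : Pl K) : 0 ≤ di I w := by
  by_cases h : I = ⊥
  · rw [h, di_bot]
    rfl
  · rw [di_apply h]
    exact Int.natCast_nonneg _

lemma di_pos_iff {I : Ideal (𝓞 K)} (hI : I ≠ ⊥) (w : Pl K) : 0 < di I w ↔ w.asIdeal ∣ I := by
  rw [di_apply hI, ← Associates.count_ne_zero_iff_dvd hI w.irreducible]
  omega

lemma di_injective {I J : Ideal (𝓞 K)} (hI : I ≠ ⊥) (hJ : J ≠ ⊥) (h : di I = di J) : I = J := by
  rw [← associated_iff_eq, ← Associates.mk_eq_mk_iff_associated]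
  apply Associates.eq_of_eq_counts (Associates.mk_ne_zero.mpr hI) (Associates.mk_ne_zero.mpr hJ)
  intro P hP
  obtain ⟨Q, rfl⟩ := Associates.exists_rep P
  have hQ : Irreducible Q := Associates.irreducible_mk.1 hP
  have hQ0 : Q ≠ ⊥ := hQ.ne_zero
  have hQp : Q.IsPrime := Ideal.isPrime_of_prime (UniqueFactorizationMonoid.irreducible_iff_prime.1 hQ)
  have h1 := DFunLike.congr_fun h (⟨Q, hQp, hQ0⟩ : Pl K)
  rw [di_apply hI, di_apply hJ] at h1
  exact_mod_cast h1

lemma di_one : di (1 : Ideal (𝓞 K)) = 0 := by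
  have h := di_mul (K := K) (I := 1) (J := 1) one_ne_zero one_ne_zero
  rw [mul_one] at h
  have h2 : di (1 : Ideal (𝓞 K)) + 0 = di (1 : Ideal (𝓞 K)) + di (1 : Ideal (𝓞 K)) := by
    rw [add_zero]; exact h
  exact (add_left_cancel h2).symm

lemma di_pow {I : Ideal (𝓞 K)} (hI : I ≠ ⊥) (n : ℕ) : di (I ^ n) = n • di I := by
  induction n with
  | zero => rw [pow_zero, di_one, zero_smul]
  | succ n ih => rw [pow_succ, di_mul (pow_ne_zero n hI) hI, ih, succ_nsmul]

lemma exists_di {d : Dv K} (hd : ∀ w, 0 ≤ d w) : ∃ I : Ideal (𝓞 K), I ≠ ⊥ ∧ di I = d := by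
  classical
  induction d using Finsupp.induction with
  | zero => exact ⟨1, one_ne_zero, di_one⟩
  | single_add w b f hw hb ih =>
    have hf : ∀ v, 0 ≤ f v := by
      intro v
      by_cases hv : v = w
      · subst hv
        rw [Finsupp.notMem_support_iff.1 hw]
      · have := hd v
        rwa [Finsupp.add_apply, Finsupp.single_eq_of_ne hv, zero_add] at this
    obtain ⟨J, hJ, hJd⟩ := ih hf
    have hb0 : 0 ≤ b := by
      have := hd w
      rwa [Finsupp.add_apply, Finsupp.single_eq_same, Finsupp.notMem_support_iff.1 hw,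
        add_zero] at this
    refine ⟨w.asIdeal ^ b.toNat * J, mul_ne_zero (pow_ne_zero _ w.ne_bot) hJ, ?_⟩
    rw [di_mul (pow_ne_zero _ w.ne_bot) hJ, di_pow w.ne_bot, di_prime, hJd, ← natCast_zsmul,
      Int.toNat_of_nonneg hb0, Finsupp.smul_single, smul_eq_mul, mul_one]

lemma di_span {x : 𝓞 K} (hx : x ≠ 0) :
    di (Ideal.span {x}) = dv (Additive.ofMul (Units.mk0 (x : K)
      (RingOfIntegers.coe_ne_zero_iff.2 hx))) := by
  ext w
  have hx0 : (Ideal.span {x} : Ideal (𝓞 K)) ≠ ⊥ := by
    rwa [Ne, Ideal.span_singleton_eq_bot]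
  rw [di_apply hx0, dv_apply]
  have h1 := val_eq w (Units.mk0 (x : K) (RingOfIntegers.coe_ne_zero_iff.2 hx))
  rw [Units.val_mk0] at h1
  have h2 : w.valuation K (x : K) = w.intValuation x := w.valuation_of_algebraMap x
  rw [h2, w.intValuation_if_neg hx, exp_inj, neg_inj] at h1
  exact h1

end One

end CFT
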