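import Pool.Agent.CFT.LogZ
import Pool.Agent.CFT.Frob

/-!
# Existence of primes with non-trivial Frobenius
-/

namespace CFT

open NumberField IsDedekindDomain Filter Topology

namespace FL

section aux

variable (K M : Type*) [Field K] [NumberField K] [Field M] [NumberField M] [Algebra K M]

/-- the places above `v` are the prime ideals above `v` -/
noncomputable def fibEquiv (v : Pl K) :
    {w' : Pl M // bl K M w' = v} ≃ v.asIdeal.primesOver (𝓞 M) where
  toFun w' := ⟨w'.1.asIdeal, w'.1.isPrime, ⟨congrArg HeightOneSpectrum.asIdeal w'.2.symm⟩⟩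
  invFun P := ⟨⟨P.1, P.2.1, Ideal.ne_bot_of_mem_primesOver v.ne_bot P.2⟩,
    HeightOneSpectrum.ext P.2.2.over.symm⟩
  left_inv _ := rfl
  right_inv _ := rfl

variable {K M}

lemma lies_bl (w' : Pl M) : w'.asIdeal.LiesOver (bl K M w').asIdeal := ⟨rfl⟩

lemma card_fib (v : Pl K)
    (he : ∀ w' : Pl M, bl K M w' = v → w'.asIdeal.ramificationIdx (𝓞 K) = 1)
    (hf : ∀ w' : Pl M, bl K M w' = v → w'.asIdeal.inertiaDeg (𝓞 K) = 1) :
    Nat.card {w' : Pl M // bl K M w' = v} = Module.finrank K M := by
  have : v.asIdeal.IsPrime := v.isPrime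
  have : v.asIdeal.IsMaximal := v.isMaximal
  have h1 := Ideal.sum_ramification_inertia_eq_finrank v.asIdeal (𝓞 M)
  rw [Nat.card_congr (fibEquiv K M v), Nat.card_eq_fintype_card, ← Finset.card_univ,
    Finset.card_eq_sum_ones, IsFractionRing.finrank_eq (𝓞 K) K (𝓞 M) M, ← h1]
  refine Finset.sum_congr rfl fun q _ => ?_
  have h2 := he ((fibEquiv K M v).symm q).1 ((fibEquiv K M v).symm q).2
  have h3 := hf ((fibEquiv K M v).symm q).1 ((fibEquiv K M v).symm q).2
  change q.1.ramificationIdx (𝓞 K) = 1 at h2
  change q.1.inertiaDeg (𝓞 K) = 1 at h3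
  rw [h2, h3]

lemma absNorm_bl (w' : Pl M) (hf : w'.asIdeal.inertiaDeg (𝓞 K) = 1) :
    Ideal.absNorm w'.asIdeal = Ideal.absNorm (bl K M w').asIdeal := by
  have : w'.asIdeal.IsPrime := w'.isPrime
  have := lies_bl (K := K) w'
  have h := Ideal.absNorm_pow_inertiaDeg (bl K M w').asIdeal w'.asIdeal
  rw [hf, pow_one] at h
  exact h.symm

lemma nr_nonneg' {K : Type*} [Field K] [NumberField K] (I : Ideal (𝓞 K)) (s : ℝ) : 0 ≤ nr I s :=
  Real.rpow_nonneg (Nat.cast_nonneg _) _

lemma nr_le_one {K : Type*} [Field K] [NumberField K] (v : Pl K) {s : ℝ} (hs : 1 < s) :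
    nr v.asIdeal s ≤ 1 := by
  rw [nr]
  refine Real.rpow_le_one_of_one_le_of_nonpos ?_ (by linarith)
  have h : Ideal.absNorm v.asIdeal ≠ 0 := by
    rw [Ne, Ideal.absNorm_eq_zero_iff]
    exact v.ne_bot
  exact_mod_cast Nat.one_le_iff_ne_zero.2 h

/-- If all but finitely many unramified places of degree one over `ℚ` split into places of degree
one, then the degree is at most one. -/
lemma finrank_le_one_of_split (S : Set (Pl K)) (hS : S.Finite)
    (he : ∀ w' : Pl M, bl K M w' ∉ S → w'.asIdeal.ramificationIdx (𝓞 K) = 1)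
    (hf : ∀ w' : Pl M, bl K M w' ∉ S → (Ideal.absNorm (bl K M w').asIdeal).Prime →
      w'.asIdeal.inertiaDeg (𝓞 K) = 1) :
    Module.finrank K M ≤ 1 := by
  classical
  by_contra hlt
  rw [not_le] at hlt
  obtain ⟨C1, h1⟩ := prime_sum K
  obtain ⟨C2, h2⟩ := prime_sum M
  obtain ⟨C3, h3⟩ := prime_sum_deg K
  -- the summand supported on good places
  set g : ℝ → Pl K → ℝ := fun s v =>
    if v ∉ S ∧ (Ideal.absNorm v.asIdeal).Prime then nr v.asIdeal s else 0 with hg
  have hg0 : ∀ s v, 0 ≤ g s v := by
    intro s v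
    simp only [hg]
    split_ifs
    · exact nr_nonneg' _ _
    · exact le_rfl
  -- lower bound for the sum over good places
  have key1 : ∀ s : ℝ, 1 < s → ∑' v : Pl K, nr v.asIdeal s
      ≤ ∑' v : Pl K, g s v + C3 + hS.toFinset.card := by
    intro s hs
    have hs1 := summable_nr_pl K hs
    have hsg : Summable (g s) := by
      refine Summable.of_nonneg_of_le (hg0 s) (fun v => ?_) hs1
      simp only [hg]
      split_ifs
      · exact le_rfl
      · exact nr_nonneg' _ _
    have hsd : Summable fun v : Pl K =>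
        (if (Ideal.absNorm v.asIdeal).Prime then 0 else nr v.asIdeal s) := by
      refine Summable.of_nonneg_of_le (fun v => ?_) (fun v => ?_) hs1
      · split_ifs
        · exact le_rfl
        · exact nr_nonneg' _ _
      · split_ifs
        · exact nr_nonneg' _ _
        · exact le_rfl
    have hsS : Summable fun v : Pl K => (if v ∈ S then (1 : ℝ) else 0) := by
      refine summable_of_hasFiniteSupport ?_
      refine hS.subset fun v hv => ?_
      by_contra h
      exact hv (if_neg h)
    have hle : ∀ v : Pl K, nr v.asIdeal s ≤ g s v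
        + (if (Ideal.absNorm v.asIdeal).Prime then 0 else nr v.asIdeal s)
        + (if v ∈ S then (1 : ℝ) else 0) := by
      intro v
      simp only [hg]
      have ha := nr_nonneg' v.asIdeal s
      have hb := nr_le_one v hs
      by_cases hp : (Ideal.absNorm v.asIdeal).Prime <;> by_cases hv : v ∈ S <;>
        (simp [hp, hv]; try linarith)
    calc ∑' v : Pl K, nr v.asIdeal s ≤ ∑' v : Pl K, (g s v
        + (if (Ideal.absNorm v.asIdeal).Prime then 0 else nr v.asIdeal s)
        + (if v ∈ S then (1 : ℝ) else 0)) :=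
          Summable.tsum_le_tsum hle hs1 ((hsg.add hsd).add hsS)
      _ = ∑' v : Pl K, g s v
        + ∑' v : Pl K, (if (Ideal.absNorm v.asIdeal).Prime then 0 else nr v.asIdeal s)
        + ∑' v : Pl K, (if v ∈ S then (1 : ℝ) else 0) := by
          rw [Summable.tsum_add (hsg.add hsd) hsS, Summable.tsum_add hsg hsd]
      _ ≤ ∑' v : Pl K, g s v + C3 + hS.toFinset.card := by
          have hc : ∑' v : Pl K, (if v ∈ S then (1 : ℝ) else 0) = hS.toFinset.card := by
            rw [tsum_eq_sum (s := hS.toFinset)]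
            · rw [Finset.sum_congr rfl (g := fun _ => (1 : ℝ))]
              · simp
              · intro v hv
                exact if_pos (hS.mem_toFinset.1 hv)
            · intro v hv
              exact if_neg fun h => hv (hS.mem_toFinset.2 h)
          rw [hc]
          have := h3 s hs
          linarith
  -- upper bound by the places of `M`
  have key2 : ∀ s : ℝ, 1 < s → (Module.finrank K M : ℝ) * ∑' v : Pl K, g s v
      ≤ ∑' w' : Pl M, nr w'.asIdeal s := by
    intro s hs
    have hs2 := summable_nr_pl M hs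
    have hle : ∀ w' : Pl M, g s (bl K M w') ≤ nr w'.asIdeal s := by
      intro w'
      simp only [hg]
      split_ifs with h
      · rw [nr, nr, absNorm_bl w' (hf w' h.1 h.2)]
      · exact nr_nonneg' _ _
    have hsb : Summable fun w' : Pl M => g s (bl K M w') :=
      Summable.of_nonneg_of_le (fun w' => hg0 s _) hle hs2
    have hsig : Summable fun x : (Σ v : Pl K, {w' : Pl M // bl K M w' = v}) =>
        g s (bl K M ((Equiv.sigmaFiberEquiv (bl K M)) x)) :=
      (Equiv.summable_iff (Equiv.sigmaFiberEquiv (bl K M))).2 hsb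
    have h4 : ∑' w' : Pl M, g s (bl K M w') = ∑' v : Pl K, (Module.finrank K M : ℝ) * g s v := by
      rw [← (Equiv.sigmaFiberEquiv (bl K M)).tsum_eq (fun w' => g s (bl K M w')), hsig.tsum_sigma]
      refine tsum_congr fun v => ?_
      have h5 : ∀ c : {w' : Pl M // bl K M w' = v},
          g s (bl K M ((Equiv.sigmaFiberEquiv (bl K M)) ⟨v, c⟩)) = g s v := by
        intro c
        exact congrArg (g s) c.2
      rw [tsum_congr h5, tsum_const, nsmul_eq_mul]
      by_cases hv : v ∉ S ∧ (Ideal.absNorm v.asIdeal).Prime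
      · rw [card_fib v (fun w' hw' => he w' (by rw [hw']; exact hv.1))
          (fun w' hw' => hf w' (by rw [hw']; exact hv.1) (by rw [hw']; exact hv.2))]
      · have : g s v = 0 := if_neg hv
        rw [this, mul_zero, mul_zero]
    rw [tsum_mul_left] at h4
    rw [← h4]
    exact Summable.tsum_le_tsum hle hsb hs2
  -- conclusion
  have h6 : Tendsto (fun s : ℝ => Real.log (1 / (s - 1))) (𝓝[>] 1) atTop := by
    refine Real.tendsto_log_atTop.comp ?_
    simp only [one_div]
    refine tendsto_inv_nhdsGT_zero.comp ?_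
    rw [tendsto_nhdsWithin_iff]
    constructor
    · have : Tendsto (fun s : ℝ => s - 1) (𝓝 1) (𝓝 (1 - 1)) :=
        (continuous_id.sub continuous_const).tendsto 1
      rw [sub_self] at this
      exact this.mono_left nhdsWithin_le_nhds
    · filter_upwards [self_mem_nhdsWithin] with s hs
      exact Set.mem_Ioi.2 (sub_pos.2 (Set.mem_Ioi.1 hs))
  have h7 := h6.eventually_gt_atTop (C2 + 2 * (C1 + C3 + hS.toFinset.card))
  have h8 : ∀ᶠ s in 𝓝[>] (1 : ℝ), 1 < s := self_mem_nhdsWithin
  obtain ⟨s, hs1, hs2, hs7, hs⟩ := (h1.and (h2.and (h7.and h8))).exists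
  have k1 := key1 s hs
  have k2 := key2 s hs
  rw [abs_le] at hs1 hs2
  have hd : (2 : ℝ) ≤ Module.finrank K M := by exact_mod_cast hlt
  have hG : 0 ≤ ∑' v : Pl K, g s v := tsum_nonneg (hg0 s)
  have k3 : 2 * ∑' v : Pl K, g s v ≤ (Module.finrank K M : ℝ) * ∑' v : Pl K, g s v :=
    mul_le_mul_of_nonneg_right hd hG
  linarith [hs1.1, hs2.2]

end aux

end FL

open FL

variable (K M : Type*) [Field K] [NumberField K] [Field M] [NumberField M] [Algebra K M]
  [IsGalois K M]

/-- Primes of degree one with non-trivial Frobenius exist: if almost all primes of `K` of degree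
one over `ℚ` had trivial Frobenius, then they would split completely in the fixed field `M` of the
kernel of `θ`, contradicting the simple poles of `ζ_K` and `ζ_M`. -/
theorem exists_frob {p : ℕ} [Fact p.Prime] (θ : Gal(M/K) →* Multiplicative (ZMod p))
    (hθ : Function.Surjective θ) {S : Set (Pl K)} (hS : S.Finite) :
    ∃ v : Pl K, v ∉ S ∧ (Ideal.absNorm v.asIdeal).Prime ∧ Unr K M v ∧ θ (frob K M v) ≠ 1 := by
  classical
  by_contra hcon
  push Not at hcon
  set N : IntermediateField K M := IntermediateField.fixedField θ.ker with hN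
  have hM : ∀ g : Gal(M/K), θ g = 1 ↔ g ∈ N.fixingSubgroup := by
    intro g
    rw [hN, IntermediateField.fixingSubgroup_fixedField, MonoidHom.mem_ker]
  have hlies : ∀ w : Pl M, w.asIdeal.LiesOver (bl N M w).asIdeal := fun w => lies_bl w
  have hunr : ∀ v' : Pl N, Unr K M (bl K N v') → v'.asIdeal.ramificationIdx (𝓞 K) = 1 := by
    intro v' hv'
    obtain ⟨w, hw⟩ := bl_surjective N M v'
    have h1 : bl K M w = bl K N v' := by rw [← hw, bl_bl]
    have h2 := hv' w h1
    have h3 : w.asIdeal.LiesOver v'.asIdeal := by rw [← hw]; exact lies_bl w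
    rw [Ideal.ramificationIdx_tower (R := 𝓞 K) v'.asIdeal w.asIdeal] at h2
    exact Nat.eq_one_of_mul_eq_one_right h2
  have hle := finrank_le_one_of_split (K := K) (M := N) (S ∪ {v | ¬ Unr K M v})
    (hS.union (finite_ram K M))
    (fun w' hw' => by
      rw [Set.mem_union, not_or] at hw'
      exact hunr w' (not_not.1 hw'.2))
    (fun w' hw' hpr => by
      rw [Set.mem_union, not_or] at hw'
      have hU : Unr K M (bl K N w') := not_not.1 hw'.2
      exact inertiaDeg_eq_one θ N hM (bl K N w') (hcon _ hw'.1 hpr hU) hU w' rfl)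
  have h1 : Module.finrank K N = p := by
    have h2 : Module.finrank K N = θ.ker.index := by
      rw [IntermediateField.finrank_eq_fixingSubgroup_index, hN,
        IntermediateField.fixingSubgroup_fixedField]
    rw [h2, Subgroup.index_ker, MonoidHom.range_eq_top.2 hθ]
    simp
  have hp := (Fact.out : p.Prime).two_le
  omega

end CFT
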