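import Pool.Agent.CFT.LogL

/-!
# Dedekind zeta functions and sums over primes near `s = 1`
-/

namespace CFT

open NumberField IsDedekindDomain Filter Topology

section

variable (K : Type*) [Field K] [NumberField K]

/-- the Dedekind zeta function as a sum over ideals -/
lemma tsum_nr_eq {s : ℝ} (hs : 1 < s) :
    NumberField.dedekindZeta K (s : ℂ) = ((∑' I : Ideal (𝓞 K), nr I s : ℝ) : ℂ) := by
  classical
  let e := Equiv.sigmaFiberEquiv (fun I : Ideal (𝓞 K) => Ideal.absNorm I)
  have hfin : ∀ n, Finite {I : Ideal (𝓞 K) // Ideal.absNorm I = n} := fun n =>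
    (Ideal.finite_setOfPred_absNorm_eq n).to_subtype
  have hsum : Summable fun x => nr (e x) s := e.summable_iff.2 (summable_nr K hs)
  have h1 : ∑' I : Ideal (𝓞 K), nr I s =
      ∑' n : ℕ, (Nat.card {I : Ideal (𝓞 K) // Ideal.absNorm I = n} : ℝ) * (n : ℝ) ^ (-s) := by
    rw [← e.tsum_eq, hsum.tsum_sigma' (fun n => by have := hfin n; exact Summable.of_finite)]
    refine tsum_congr (fun n => ?_)
    have := hfin n
    have : Fintype {I : Ideal (𝓞 K) // Ideal.absNorm I = n} := Fintype.ofFinite _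
    have h1 : ∀ I : {I : Ideal (𝓞 K) // Ideal.absNorm I = n},
        nr (e ⟨n, I⟩) s = (n : ℝ) ^ (-s) := by
      intro I
      have h2 : (e ⟨n, I⟩) = I.1 := rfl
      rw [h2, nr, I.2]
    rw [tsum_congr h1, tsum_fintype, Finset.sum_const, nsmul_eq_mul, Finset.card_univ,
      ← Nat.card_eq_fintype_card]
  rw [h1, Complex.ofReal_tsum, NumberField.dedekindZeta, LSeries]
  refine tsum_congr (fun n => ?_)
  rcases Nat.eq_zero_or_pos n with rfl | hn
  · rw [LSeries.term_zero, Nat.cast_zero, Real.zero_rpow (by linarith), mul_zero,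
      Complex.ofReal_zero]
  · rw [LSeries.term_of_ne_zero hn.ne', Complex.ofReal_mul, Real.rpow_neg (Nat.cast_nonneg _),
      Complex.ofReal_inv, Complex.ofReal_cpow (Nat.cast_nonneg _), div_eq_mul_inv]
    simp

/-- the class number formula of Mathlib, `(s - 1) ζ_K(s) → κ > 0` -/
theorem zeta_limit : ∃ κ : ℝ, 0 < κ ∧
    Tendsto (fun s : ℝ => (s - 1) * ∑' I : Ideal (𝓞 K), nr I s) (𝓝[>] 1) (𝓝 κ) := by
  refine ⟨NumberField.dedekindZeta_residue K, NumberField.dedekindZeta_residue_pos K, ?_⟩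
  have h1 := NumberField.tendsto_sub_one_mul_dedekindZeta_nhdsGT K
  have h2 := (Complex.continuous_re.tendsto _).comp h1
  rw [Complex.ofReal_re] at h2
  refine h2.congr' ?_
  filter_upwards [self_mem_nhdsWithin] with s hs
  rw [Function.comp_apply, tsum_nr_eq K hs, ← Complex.ofReal_one, ← Complex.ofReal_sub,
    ← Complex.ofReal_mul, Complex.ofReal_re]

theorem log_zeta : ∃ C : ℝ, ∀ᶠ s in 𝓝[>] (1 : ℝ),
    |Real.log (∑' I : Ideal (𝓞 K), nr I s) - Real.log (1 / (s - 1))| ≤ C := by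
  obtain ⟨κ, hκ, hlim⟩ := zeta_limit K
  have h1 := ((Real.continuousAt_log hκ.ne').tendsto.comp hlim).abs
  refine ⟨|Real.log κ| + 1, ?_⟩
  have h2 := h1.eventually_le_const (lt_add_one |Real.log κ|)
  filter_upwards [h2, self_mem_nhdsWithin] with s hs1 hs
  have hs' : (0 : ℝ) < s - 1 := sub_pos.2 hs
  have hZ : 0 < ∑' I : Ideal (𝓞 K), nr I s := by
    refine lt_of_lt_of_le ?_ ((summable_nr K hs).le_tsum 1 (fun _ _ => nr_nonneg _ _))
    rw [nr_one]
    exact one_pos
  rw [Function.comp_apply, Real.log_mul hs'.ne' hZ.ne'] at hs1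
  rw [one_div, Real.log_inv, sub_neg_eq_add, add_comm]
  exact hs1

open Classical in
/-- the trivial character -/
noncomputable def trivG : Ideal (𝓞 K) →*₀ ℂ where
  toFun I := if I = ⊥ then 0 else 1
  map_zero' := if_pos rfl
  map_one' := if_neg one_ne_zero
  map_mul' I J := by
    have h : I * J = ⊥ ↔ I = ⊥ ∨ J = ⊥ := mul_eq_zero
    by_cases hI : I = ⊥
    · rw [if_pos (h.2 (Or.inl hI)), if_pos hI, zero_mul]
    · by_cases hJ : J = ⊥
      · rw [if_pos (h.2 (Or.inr hJ)), if_pos hJ, mul_zero]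
      · rw [if_neg (fun h' => (h.1 h').elim hI hJ), if_neg hI, if_neg hJ, one_mul]

/-- the sum over the primes -/
theorem prime_sum : ∃ C : ℝ, ∀ᶠ s in 𝓝[>] (1 : ℝ),
    |(∑' w : Pl K, nr w.asIdeal s) - Real.log (1 / (s - 1))| ≤ C := by
  classical
  obtain ⟨C₁, h₁⟩ := log_L K
  obtain ⟨C₂, h₂⟩ := log_zeta K
  refine ⟨C₁ + C₂, ?_⟩
  filter_upwards [h₂, self_mem_nhdsWithin] with s hs2 hs
  have hs' : (1 : ℝ) < s := hs
  have h3 := (h₁ (trivG K) (fun I => by
    change ‖if I = ⊥ then (0 : ℂ) else 1‖ ≤ 1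
    split_ifs <;> simp) s hs').2
  have h4 : ∑' I : Ideal (𝓞 K), (trivG K) I * (nr I s : ℂ) =
      ((∑' I : Ideal (𝓞 K), nr I s : ℝ) : ℂ) := by
    rw [Complex.ofReal_tsum]
    refine tsum_congr (fun I => ?_)
    change (if I = ⊥ then (0 : ℂ) else 1) * _ = _
    split_ifs with hI
    · rw [hI, nr, Ideal.absNorm_bot, Nat.cast_zero, Real.zero_rpow (by linarith)]
      simp
    · rw [one_mul]
  have h5 : ∑' w : Pl K, ((trivG K) w.asIdeal).re * nr w.asIdeal s = ∑' w : Pl K, nr w.asIdeal s := by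
    refine tsum_congr (fun w => ?_)
    change (if w.asIdeal = ⊥ then (0 : ℂ) else 1).re * _ = _
    rw [if_neg w.ne_bot, Complex.one_re, one_mul]
  have hZ : 0 ≤ ∑' I : Ideal (𝓞 K), nr I s := tsum_nonneg (fun _ => nr_nonneg _ _)
  rw [h4, h5, Complex.norm_real, Real.norm_of_nonneg hZ] at h3
  calc |(∑' w : Pl K, nr w.asIdeal s) - Real.log (1 / (s - 1))|
      = |(Real.log (∑' I : Ideal (𝓞 K), nr I s) - Real.log (1 / (s - 1))) -
          (Real.log (∑' I : Ideal (𝓞 K), nr I s) - ∑' w : Pl K, nr w.asIdeal s)| := by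
        congr 1; ring
    _ ≤ |Real.log (∑' I : Ideal (𝓞 K), nr I s) - Real.log (1 / (s - 1))| +
          |Real.log (∑' I : Ideal (𝓞 K), nr I s) - ∑' w : Pl K, nr w.asIdeal s| := abs_sub _ _
    _ ≤ C₁ + C₂ := by linarith

variable {K}

/-- the prime below -/
noncomputable def qw (w : Pl K) : ℕ := Ideal.absNorm (w.asIdeal.under ℤ)

lemma qw_prime (w : Pl K) : (qw w).Prime := by
  have : w.asIdeal.IsPrime := w.isPrime
  have : NeZero w.asIdeal := ⟨w.ne_bot⟩
  exact Nat.absNorm_under_prime w.asIdeal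

lemma qw_liesOver (w : Pl K) : w.asIdeal.LiesOver (Ideal.span {((qw w : ℕ) : ℤ)}) :=
  Int.liesOver_span_absNorm w.asIdeal

lemma sq_le_absNorm (w : Pl K) (h : ¬ (Ideal.absNorm w.asIdeal).Prime) :
    qw w ^ 2 ≤ Ideal.absNorm w.asIdeal := by
  have hl := qw_liesOver w
  have hp := qw_prime w
  have h1 := Ideal.absNorm_eq_pow_inertiaDeg' w.asIdeal hp
  have h2 := two_le_absNorm w
  have h3 : 2 ≤ (Ideal.span {((qw w : ℕ) : ℤ)}).inertiaDeg' w.asIdeal := by
    by_contra hcon
    have h4 : (Ideal.span {((qw w : ℕ) : ℤ)}).inertiaDeg' w.asIdeal = 0 ∨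
        (Ideal.span {((qw w : ℕ) : ℤ)}).inertiaDeg' w.asIdeal = 1 := by omega
    rcases h4 with h4 | h4
    · rw [h4, pow_zero] at h1
      omega
    · rw [h4, pow_one] at h1
      exact h (h1 ▸ hp)
  rw [h1]
  exact Nat.pow_le_pow_right hp.pos h3

lemma finite_qw (n : ℕ) (hn : n.Prime) :
    Finite {w : Pl K // qw w = n} ∧ Nat.card {w : Pl K // qw w = n} ≤ Module.finrank ℚ K := by
  classical
  have hz : (Ideal.span {(n : ℤ)}) ≠ ⊥ := by
    rw [Ne, Ideal.span_singleton_eq_bot]
    exact_mod_cast hn.ne_zero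
  have hpr : (Ideal.span {(n : ℤ)}).IsPrime := by
    rw [Ideal.span_singleton_prime (by exact_mod_cast hn.ne_zero)]
    exact Nat.prime_iff_prime_int.1 hn
  have hmax : (Ideal.span {(n : ℤ)}).IsMaximal := hpr.isMaximal hz
  have hf : ∀ w : {w : Pl K // qw w = n},
      w.1.asIdeal ∈ IsDedekindDomain.primesOverFinset (Ideal.span {(n : ℤ)}) (𝓞 K) := by
    rintro ⟨w, hw⟩
    rw [IsDedekindDomain.mem_primesOverFinset_iff hz]
    have := qw_liesOver w
    rw [hw] at this
    exact ⟨w.isPrime, this⟩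
  let f : {w : Pl K // qw w = n} →
      {P // P ∈ IsDedekindDomain.primesOverFinset (Ideal.span {(n : ℤ)}) (𝓞 K)} :=
    fun w => ⟨w.1.asIdeal, hf w⟩
  have hinj : Function.Injective f := by
    intro w v h
    apply Subtype.ext
    exact HeightOneSpectrum.ext (congrArg Subtype.val h)
  refine ⟨Finite.of_injective f hinj, ?_⟩
  have h1 := Nat.card_le_card_of_injective f hinj
  refine h1.trans ?_
  rw [Nat.card_eq_fintype_card, Fintype.card_coe]
  exact Ideal.card_primesOverFinset_le_finrank (𝓞 K) ℚ K hz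

variable (K)

lemma summable_qw : Summable fun w : Pl K => ((qw w : ℝ) ^ 2)⁻¹ := by
  classical
  let e := Equiv.sigmaFiberEquiv (fun w : Pl K => qw w)
  rw [← e.summable_iff]
  have hfin : ∀ n, Finite {w : Pl K // qw w = n} ∧
      Nat.card {w : Pl K // qw w = n} ≤ Module.finrank ℚ K := by
    intro n
    by_cases hn : n.Prime
    · exact finite_qw n hn
    · have : IsEmpty {w : Pl K // qw w = n} := ⟨fun w => hn (w.2 ▸ qw_prime w.1)⟩
      exact ⟨inferInstance, by simp⟩
  rw [summable_sigma_of_nonneg]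
  · refine ⟨fun n => ?_, ?_⟩
    · have := (hfin n).1
      exact Summable.of_finite
    · refine Summable.of_nonneg_of_le (fun n => tsum_nonneg (fun _ => ?_)) (fun n => ?_)
        (((Real.summable_nat_pow_inv (p := 2)).2 (by norm_num)).mul_left (Module.finrank ℚ K : ℝ))
      · simp only [Function.comp_apply]; positivity
      · have := (hfin n).1
        have : Fintype {w : Pl K // qw w = n} := Fintype.ofFinite _
        have h1 : ∀ w : {w : Pl K // qw w = n},
            ((fun w : Pl K => ((qw w : ℝ) ^ 2)⁻¹) ∘ e) ⟨n, w⟩ = ((n : ℝ) ^ 2)⁻¹ := by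
          intro w
          have h2 : (e ⟨n, w⟩) = w.1 := rfl
          simp only [Function.comp_apply, h2]
          rw [w.2]
        rw [tsum_congr h1, tsum_fintype, Finset.sum_const, nsmul_eq_mul]
        apply mul_le_mul_of_nonneg_right _ (by positivity)
        rw [Finset.card_univ, ← Nat.card_eq_fintype_card]
        exact_mod_cast (hfin n).2
  · intro x
    simp only [Function.comp_apply]
    positivity

open Classical in
/-- primes of residue degree greater than one over `ℚ` contribute boundedly -/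
theorem prime_sum_deg : ∃ C : ℝ, ∀ s : ℝ, 1 < s →
    ∑' w : Pl K, (if (Ideal.absNorm w.asIdeal).Prime then 0 else nr w.asIdeal s) ≤ C := by
  refine ⟨∑' w : Pl K, ((qw w : ℝ) ^ 2)⁻¹, fun s hs => ?_⟩
  have hle : ∀ w : Pl K, (if (Ideal.absNorm w.asIdeal).Prime then 0 else nr w.asIdeal s)
      ≤ ((qw w : ℝ) ^ 2)⁻¹ := by
    intro w
    split_ifs with h
    · positivity
    · have h1 := sq_le_absNorm w h
      have h2 : ((qw w : ℝ) ^ 2) ≤ Ideal.absNorm w.asIdeal := by exact_mod_cast h1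
      have h3 : (1 : ℝ) ≤ Ideal.absNorm w.asIdeal := by
        have := two_le_absNorm w
        exact_mod_cast this.trans' (by norm_num)
      have h4 : (Ideal.absNorm w.asIdeal : ℝ) ≤ (Ideal.absNorm w.asIdeal : ℝ) ^ s := by
        conv_lhs => rw [← Real.rpow_one (Ideal.absNorm w.asIdeal : ℝ)]
        exact Real.rpow_le_rpow_of_exponent_le h3 hs.le
      rw [nr, Real.rpow_neg (by positivity)]
      have h5 : 0 < (qw w : ℝ) := by exact_mod_cast (qw_prime w).pos
      exact inv_anti₀ (by positivity) (h2.trans h4)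
  have hnn : ∀ w : Pl K, 0 ≤ (if (Ideal.absNorm w.asIdeal).Prime then 0 else nr w.asIdeal s) := by
    intro w
    split_ifs
    · exact le_rfl
    · exact nr_nonneg _ _
  exact (Summable.of_nonneg_of_le hnn hle (summable_qw K)).tsum_le_tsum hle (summable_qw K)

end

end CFT
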