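import Pool.Agent.CFT.Basic

/-!
# Logarithms of L-series near `s = 1`
-/

namespace CFT

open NumberField IsDedekindDomain Filter Topology

section

variable (K : Type*) [Field K] [NumberField K]

/-- `N(I)^(-s)` -/
noncomputable def nr {K : Type*} [Field K] [NumberField K] (I : Ideal (𝓞 K)) (s : ℝ) : ℝ :=
  (Ideal.absNorm I : ℝ) ^ (-s)

lemma nr_nonneg {K : Type*} [Field K] [NumberField K] (I : Ideal (𝓞 K)) (s : ℝ) : 0 ≤ nr I s := by
  rw [nr]; positivity

lemma nr_mul {K : Type*} [Field K] [NumberField K] (I J : Ideal (𝓞 K)) (s : ℝ) :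
    nr (I * J) s = nr I s * nr J s := by
  rw [nr, nr, nr, map_mul, Nat.cast_mul, Real.mul_rpow (Nat.cast_nonneg _) (Nat.cast_nonneg _)]

lemma nr_one {K : Type*} [Field K] [NumberField K] (s : ℝ) : nr (1 : Ideal (𝓞 K)) s = 1 := by
  rw [nr, map_one, Nat.cast_one, Real.one_rpow]

lemma summable_card {σ : ℝ} (hσ : 1 < σ) :
    Summable fun n : ℕ => (Nat.card {I : Ideal (𝓞 K) // Ideal.absNorm I = n} : ℝ) * (n : ℝ) ^ (-σ) := by
  have h0 : (fun n : ℕ => ∑ k ∈ Finset.Icc 1 n,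
      ((Nat.card {I : Ideal (𝓞 K) // Ideal.absNorm I = k} : ℝ))) =O[atTop]
      fun n => (n : ℝ) ^ (1 : ℝ) := by
    have h1 := ((Ideal.tendsto_norm_le_div_atTop₀ K).comp tendsto_natCast_atTop_atTop).isBigO_one ℝ
    have h2 : (fun n : ℕ => (∑ k ∈ Finset.Icc 1 n,
        ((Nat.card {I : Ideal (𝓞 K) // Ideal.absNorm I = k} : ℝ))) / (n : ℝ)) =O[atTop]
        fun _ => (1 : ℝ) := by
      refine h1.congr (fun n => ?_) (fun _ => rfl)
      simp only [Function.comp_apply, Nat.cast_le, ← Nat.cast_sum]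
      congr
      rw [← add_left_inj 1, ← Ideal.card_norm_le_eq_card_norm_le_add_one,
        show Finset.Icc 1 n = Finset.Ioc 0 n from Finset.Icc_succ_left_eq_Ioc _ _,
        show 1 = Nat.card {I : Ideal (𝓞 K) // Ideal.absNorm I = 0} by
          simp [Ideal.absNorm_eq_zero_iff],
        Finset.sum_Ioc_add_eq_sum_Icc (n.zero_le),
        ← Finset.card_preimage_eq_sum_card_image_eq
          (fun k _ => Ideal.finite_setOfPred_absNorm_eq k)]
      simp [Set.coe_eq_subtype]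
    have h3 := h2.mul (Asymptotics.isBigO_refl (fun n : ℕ => (n : ℝ)) atTop)
    refine h3.congr' ?_ ?_
    · filter_upwards [eventually_gt_atTop 0] with n hn
      have : (n : ℝ) ≠ 0 := by positivity
      field_simp
    · filter_upwards with n
      simp
  have h1 := LSeriesSummable_of_sum_norm_bigO_and_nonneg
    (f := fun n : ℕ => (Nat.card {I : Ideal (𝓞 K) // Ideal.absNorm I = n} : ℝ)) (r := 1)
    h0 (fun _ => Nat.cast_nonneg _) zero_le_one (s := (σ : ℂ)) (by simpa using hσ)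
  have h2 := h1.norm
  refine Summable.of_norm_bounded_eventually_nat h2 ?_
  filter_upwards [eventually_gt_atTop 0] with n hn
  rw [LSeries.norm_term_eq, if_neg hn.ne', Complex.ofReal_re, Real.norm_of_nonneg (by positivity),
    Real.rpow_neg (by positivity), div_eq_mul_inv]
  apply le_of_eq
  congr 1
  simp

theorem summable_nr {s : ℝ} (hs : 1 < s) : Summable fun I : Ideal (𝓞 K) => nr I s := by
  classical
  let e := Equiv.sigmaFiberEquiv (fun I : Ideal (𝓞 K) => Ideal.absNorm I)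
  rw [← e.summable_iff]
  have hfin : ∀ n, Finite {I : Ideal (𝓞 K) // Ideal.absNorm I = n} := fun n =>
    (Ideal.finite_setOfPred_absNorm_eq n).to_subtype
  rw [summable_sigma_of_nonneg]
  · refine ⟨fun n => ?_, ?_⟩
    · have := hfin n
      exact Summable.of_finite
    · refine Summable.of_nonneg_of_le (fun n => tsum_nonneg (fun _ => ?_)) (fun n => ?_)
        (summable_card (K := K) hs)
      · exact nr_nonneg _ _
      · have := hfin n
        have : Fintype {I : Ideal (𝓞 K) // Ideal.absNorm I = n} := Fintype.ofFinite _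
        have h1 : ∀ I : {I : Ideal (𝓞 K) // Ideal.absNorm I = n},
            ((fun I : Ideal (𝓞 K) => nr I s) ∘ e) ⟨n, I⟩ = (n : ℝ) ^ (-s) := by
          intro I
          have h2 : (e ⟨n, I⟩) = I.1 := rfl
          simp only [Function.comp_apply, h2, nr]
          rw [I.2]
        rw [tsum_congr h1, tsum_fintype, Finset.sum_const, nsmul_eq_mul]
        apply mul_le_mul_of_nonneg_right _ (by positivity)
        rw [Finset.card_univ, ← Nat.card_eq_fintype_card]
  · intro x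
    exact nr_nonneg _ _

lemma asIdeal_injective : Function.Injective fun w : Pl K => w.asIdeal := by
  intro w v h
  exact HeightOneSpectrum.ext h

theorem summable_nr_pl {s : ℝ} (hs : 1 < s) : Summable fun w : Pl K => nr w.asIdeal s :=
  (summable_nr K hs).comp_injective (asIdeal_injective K)

variable {K}

lemma two_le_absNorm (w : Pl K) : 2 ≤ Ideal.absNorm w.asIdeal := by
  have h0 : Ideal.absNorm w.asIdeal ≠ 0 := by
    rw [Ne, Ideal.absNorm_eq_zero_iff]; exact w.ne_bot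
  have h1 : Ideal.absNorm w.asIdeal ≠ 1 := by
    rw [Ne, Ideal.absNorm_eq_one_iff]; exact w.isPrime.ne_top
  omega

lemma nr_le_half (w : Pl K) {s : ℝ} (hs : 1 < s) : nr w.asIdeal s ≤ 1 / 2 := by
  have h2 : (2 : ℝ) ≤ Ideal.absNorm w.asIdeal := by exact_mod_cast two_le_absNorm w
  have h3 : (2 : ℝ) ≤ (Ideal.absNorm w.asIdeal : ℝ) ^ s := by
    calc (2 : ℝ) ≤ Ideal.absNorm w.asIdeal := h2
      _ = (Ideal.absNorm w.asIdeal : ℝ) ^ (1 : ℝ) := (Real.rpow_one _).symm
      _ ≤ _ := Real.rpow_le_rpow_of_exponent_le (by linarith) hs.le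
  rw [nr, Real.rpow_neg (by positivity), one_div]
  exact inv_anti₀ (by norm_num) h3

lemma nr_sq_le (w : Pl K) {s : ℝ} (hs : 1 < s) : nr w.asIdeal s ^ 2 ≤ nr w.asIdeal 2 := by
  have h2 : (1 : ℝ) ≤ Ideal.absNorm w.asIdeal := by
    have := two_le_absNorm w
    exact_mod_cast this.trans' (by norm_num)
  rw [nr, nr, ← Real.rpow_natCast, ← Real.rpow_mul (by positivity)]
  apply Real.rpow_le_rpow_of_exponent_le h2
  push_cast
  linarith

/-- the term of the L-series -/
noncomputable def tg (g : Ideal (𝓞 K) →*₀ ℂ) (s : ℝ) (I : Ideal (𝓞 K)) : ℂ := g I * (nr I s : ℂ)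

lemma tg_mul (g : Ideal (𝓞 K) →*₀ ℂ) (s : ℝ) (I J : Ideal (𝓞 K)) :
    tg g s (I * J) = tg g s I * tg g s J := by
  rw [tg, tg, tg, map_mul, nr_mul]
  push_cast
  ring

lemma tg_one (g : Ideal (𝓞 K) →*₀ ℂ) (s : ℝ) : tg g s 1 = 1 := by
  rw [tg, map_one, nr_one]; simp

lemma tg_bot (g : Ideal (𝓞 K) →*₀ ℂ) (s : ℝ) : tg g s ⊥ = 0 := by
  have : g ⊥ = 0 := map_zero g
  rw [tg, this, zero_mul]

lemma norm_tg_le {g : Ideal (𝓞 K) →*₀ ℂ} (hg : ∀ I, ‖g I‖ ≤ 1) (s : ℝ) (I : Ideal (𝓞 K)) :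
    ‖tg g s I‖ ≤ nr I s := by
  rw [tg, norm_mul, Complex.norm_real, Real.norm_of_nonneg (nr_nonneg _ _)]
  exact mul_le_of_le_one_left (nr_nonneg _ _) (hg I)

lemma summable_tg {g : Ideal (𝓞 K) →*₀ ℂ} (hg : ∀ I, ‖g I‖ ≤ 1) {s : ℝ} (hs : 1 < s) :
    Summable fun I => ‖tg g s I‖ :=
  Summable.of_nonneg_of_le (fun _ => norm_nonneg _) (norm_tg_le hg s) (summable_nr K hs)

open Classical in
/-- the term restricted to the ideals prime to `S` -/
noncomputable def tS (g : Ideal (𝓞 K) →*₀ ℂ) (s : ℝ) (S : Finset (Pl K)) (I : Ideal (𝓞 K)) : ℂ :=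
  if ∃ v ∈ S, v.asIdeal ∣ I then 0 else tg g s I

lemma norm_tS_le (g : Ideal (𝓞 K) →*₀ ℂ) (s : ℝ) (S : Finset (Pl K)) (I : Ideal (𝓞 K)) :
    ‖tS g s S I‖ ≤ ‖tg g s I‖ := by
  unfold tS
  split_ifs
  · rw [norm_zero]; exact norm_nonneg _
  · exact le_rfl

lemma summable_tS {g : Ideal (𝓞 K) →*₀ ℂ} (hg : ∀ I, ‖g I‖ ≤ 1) {s : ℝ} (hs : 1 < s)
    (S : Finset (Pl K)) : Summable fun I => tS g s S I :=
  Summable.of_norm_bounded (summable_tg hg hs) (norm_tS_le g s S)

lemma mul_left_inj_ideal (w : Pl K) :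
    Function.Injective fun I : Ideal (𝓞 K) => w.asIdeal * I := by
  intro I J h
  exact mul_left_cancel₀ w.ne_bot h

lemma dvd_of_ne {v w : Pl K} (h : v ≠ w) (I : Ideal (𝓞 K)) :
    v.asIdeal ∣ w.asIdeal * I ↔ v.asIdeal ∣ I := by
  constructor
  · intro hd
    rcases v.prime.dvd_or_dvd hd with h1 | h1
    · exfalso
      apply h
      have h3 := (Prime.dvd_prime_iff_associated v.prime w.prime).1 h1
      exact HeightOneSpectrum.ext (associated_iff_eq.1 h3)
    · exact h1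
  · intro hd
    exact hd.mul_left _

lemma tsum_tS {g : Ideal (𝓞 K) →*₀ ℂ} (hg : ∀ I, ‖g I‖ ≤ 1) {s : ℝ} (hs : 1 < s)
    (S : Finset (Pl K)) :
    (∏ v ∈ S, (1 - tg g s v.asIdeal)) * ∑' I, tg g s I = ∑' I, tS g s S I := by
  classical
  induction S using Finset.induction_on with
  | empty =>
    rw [Finset.prod_empty, one_mul]
    refine tsum_congr (fun I => ?_)
    rw [tS, if_neg]
    rintro ⟨v, hv, _⟩
    exact absurd hv (Finset.notMem_empty v)
  | insert w S hw ih =>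
    rw [Finset.prod_insert hw, mul_assoc, ih, sub_mul, one_mul]
    have h1 : tg g s w.asIdeal * ∑' I, tS g s S I =
        ∑' I, (if w.asIdeal ∣ I then tS g s S I else 0) := by
      have hsupp : Function.support (fun I : Ideal (𝓞 K) => if w.asIdeal ∣ I then tS g s S I else 0)
          ⊆ Set.range fun I : Ideal (𝓞 K) => w.asIdeal * I := by
        intro I hI
        rw [Function.mem_support] at hI
        have h1 : w.asIdeal ∣ I := by
          by_contra h2
          exact hI (if_neg h2)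
        obtain ⟨I', hI'⟩ := h1
        exact ⟨I', hI'.symm⟩
      rw [← tsum_mul_left, ← (mul_left_inj_ideal w).tsum_eq hsupp]
      refine tsum_congr (fun I => ?_)
      rw [if_pos (dvd_mul_right _ _)]
      unfold tS
      have h2 : (∃ v ∈ S, v.asIdeal ∣ w.asIdeal * I) ↔ ∃ v ∈ S, v.asIdeal ∣ I := by
        constructor
        · rintro ⟨v, hv, hd⟩
          have hvw : v ≠ w := by rintro rfl; exact hw hv
          exact ⟨v, hv, (dvd_of_ne hvw I).1 hd⟩
        · rintro ⟨v, hv, hd⟩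
          have hvw : v ≠ w := by rintro rfl; exact hw hv
          exact ⟨v, hv, (dvd_of_ne hvw I).2 hd⟩
      by_cases h3 : ∃ v ∈ S, v.asIdeal ∣ I
      · rw [if_pos h3, if_pos (h2.2 h3), mul_zero]
      · rw [if_neg h3, if_neg (fun h => h3 (h2.1 h)), tg_mul]
    have hsum1 := summable_tS hg hs S
    have hsum2 : Summable fun I => (if w.asIdeal ∣ I then tS g s S I else 0) := by
      refine Summable.of_norm_bounded (summable_tg hg hs) (fun I => ?_)
      split_ifs
      · exact norm_tS_le g s S I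
      · rw [norm_zero]; exact norm_nonneg _
    rw [h1, ← hsum1.tsum_sub hsum2]
    refine tsum_congr (fun I => ?_)
    by_cases h3 : w.asIdeal ∣ I
    · rw [if_pos h3, sub_self, tS, if_pos ⟨w, Finset.mem_insert_self _ _, h3⟩]
    · rw [if_neg h3, sub_zero]
      unfold tS
      have h2 : (∃ v ∈ insert w S, v.asIdeal ∣ I) ↔ ∃ v ∈ S, v.asIdeal ∣ I := by
        constructor
        · rintro ⟨v, hv, hd⟩
          rcases Finset.mem_insert.1 hv with rfl | hv
          · exact absurd hd h3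
          · exact ⟨v, hv, hd⟩
        · rintro ⟨v, hv, hd⟩
          exact ⟨v, Finset.mem_insert_of_mem hv, hd⟩
      by_cases h4 : ∃ v ∈ S, v.asIdeal ∣ I
      · rw [if_pos h4, if_pos (h2.2 h4)]
      · rw [if_neg h4, if_neg (fun h => h4 (h2.1 h))]

lemma exists_pl_dvd {I : Ideal (𝓞 K)} (h0 : I ≠ ⊥) (h1 : I ≠ 1) : ∃ v : Pl K, v.asIdeal ∣ I := by
  obtain ⟨M, hM, hIM⟩ := Ideal.exists_le_maximal I (by rwa [← Ideal.one_eq_top])
  have hMb : M ≠ ⊥ := by
    rintro rfl
    exact h0 (le_bot_iff.1 hIM)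
  exact ⟨⟨M, hM.isPrime, hMb⟩, Ideal.dvd_iff_le.2 hIM⟩

/-- convergence of the Euler product -/
theorem tendsto_euler {g : Ideal (𝓞 K) →*₀ ℂ} (hg : ∀ I, ‖g I‖ ≤ 1) {s : ℝ} (hs : 1 < s) :
    Tendsto (fun S : Finset (Pl K) => (∏ v ∈ S, (1 - tg g s v.asIdeal)) * ∑' I, tg g s I)
      atTop (𝓝 1) := by
  classical
  have h1 : ∑' I : Ideal (𝓞 K), (if I = 1 then (1 : ℂ) else 0) = 1 := by
    rw [tsum_ite_eq]
  refine Tendsto.congr (fun S => (tsum_tS hg hs S).symm) ?_
  rw [← h1]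
  refine tendsto_tsum_of_dominated_convergence (bound := fun I => ‖tg g s I‖)
    (summable_tg hg hs) (fun I => ?_) (Eventually.of_forall (fun S I => norm_tS_le g s S I))
  by_cases hI : I = 1
  · rw [if_pos hI, hI]
    refine tendsto_const_nhds.congr (fun S => ?_)
    rw [tS, if_neg, tg_one]
    rintro ⟨v, _, hd⟩
    exact v.prime.not_isUnit (isUnit_of_dvd_one hd)
  · rw [if_neg hI]
    by_cases hI0 : I = ⊥
    · refine tendsto_const_nhds.congr (fun S => ?_)
      subst hI0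
      unfold tS
      split_ifs
      · rfl
      · rw [tg_bot]
    · obtain ⟨v, hv⟩ := exists_pl_dvd hI0 hI
      refine tendsto_const_nhds.congr' ?_
      filter_upwards [eventually_ge_atTop ({v} : Finset (Pl K))] with S hS
      rw [tS, if_pos ⟨v, hS (Finset.mem_singleton_self v), hv⟩]

lemma log_est {z : ℂ} (hz : ‖z‖ ≤ 1 / 2) : |Real.log ‖1 - z‖ + z.re| ≤ ‖z‖ ^ 2 := by
  have h1 := Complex.norm_log_one_add_sub_self_le (z := -z) (by rw [norm_neg]; linarith)
  rw [norm_neg] at h1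
  have h2 : Real.log ‖1 - z‖ + z.re = (Complex.log (1 + -z) - -z).re := by
    rw [sub_neg_eq_add, Complex.add_re, Complex.log_re, ← sub_eq_add_neg]
  rw [h2]
  refine (Complex.abs_re_le_norm _).trans (h1.trans ?_)
  have h3 : (1 - ‖z‖)⁻¹ ≤ 2 := by
    rw [inv_le_comm₀ (by linarith) (by norm_num)]
    linarith
  have h4 : ‖z‖ ^ 2 * (1 - ‖z‖)⁻¹ ≤ ‖z‖ ^ 2 * 2 :=
    mul_le_mul_of_nonneg_left h3 (by positivity)
  linarith

variable (K)

/-- The logarithm of an L-series, uniformly in the character and in `s > 1`: by the Euler product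
`Σ g(I) N(I)^(-s) = Π (1 - g(w) N(w)^(-s))⁻¹` and `|log |1 - z|⁻¹ - Re z| ≤ |z|²` for
`|z| ≤ 1 / 2`. -/
theorem log_L : ∃ C : ℝ, ∀ g : Ideal (𝓞 K) →*₀ ℂ, (∀ I, ‖g I‖ ≤ 1) → ∀ s : ℝ, 1 < s →
    (∑' I : Ideal (𝓞 K), g I * (nr I s : ℂ)) ≠ 0 ∧
    |Real.log ‖∑' I : Ideal (𝓞 K), g I * (nr I s : ℂ)‖
      - ∑' w : Pl K, (g w.asIdeal).re * nr w.asIdeal s| ≤ C := by
  refine ⟨∑' w : Pl K, nr w.asIdeal 2, fun g hg s hs => ?_⟩
  change (∑' I : Ideal (𝓞 K), tg g s I) ≠ 0 ∧
    |Real.log ‖∑' I : Ideal (𝓞 K), tg g s I‖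
      - ∑' w : Pl K, (g w.asIdeal).re * nr w.asIdeal s| ≤ _
  have hE := tendsto_euler hg hs
  have hL : (∑' I : Ideal (𝓞 K), tg g s I) ≠ 0 := by
    intro h0
    rw [h0] at hE
    simp only [mul_zero] at hE
    exact zero_ne_one (tendsto_nhds_unique tendsto_const_nhds hE)
  refine ⟨hL, ?_⟩
  have hhalf : ∀ w : Pl K, ‖tg g s w.asIdeal‖ ≤ 1 / 2 := fun w =>
    (norm_tg_le hg s _).trans (nr_le_half w hs)
  have hne : ∀ w : Pl K, ‖1 - tg g s w.asIdeal‖ ≠ 0 := by
    intro w h0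
    rw [norm_eq_zero, sub_eq_zero] at h0
    have := hhalf w
    rw [← h0, norm_one] at this
    norm_num at this
  -- logarithm of the partial products
  have hlog : Tendsto (fun S : Finset (Pl K) =>
      (∑ v ∈ S, Real.log ‖1 - tg g s v.asIdeal‖) + Real.log ‖∑' I, tg g s I‖) atTop (𝓝 0) := by
    have h1 := hE.norm
    rw [norm_one] at h1
    have h2 := (Real.continuousAt_log one_ne_zero).tendsto.comp h1
    rw [Real.log_one] at h2
    refine h2.congr (fun S => ?_)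
    rw [Function.comp_apply, norm_mul, norm_prod, Real.log_mul _ (norm_ne_zero_iff.2 hL),
      Real.log_prod (fun v _ => hne v)]
    exact Finset.prod_ne_zero_iff.2 (fun v _ => hne v)
  have hre : ∀ w : Pl K, (tg g s w.asIdeal).re = (g w.asIdeal).re * nr w.asIdeal s := by
    intro w
    rw [tg, Complex.re_mul_ofReal]
  have hsumre : Summable fun w : Pl K => (g w.asIdeal).re * nr w.asIdeal s := by
    refine Summable.of_norm_bounded (summable_nr_pl K hs) (fun w => ?_)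
    rw [← hre, Real.norm_eq_abs]
    exact (Complex.abs_re_le_norm _).trans (norm_tg_le hg s _)
  have hlim : Tendsto (fun S : Finset (Pl K) =>
      ((∑ v ∈ S, Real.log ‖1 - tg g s v.asIdeal‖) + Real.log ‖∑' I, tg g s I‖)
        - (∑ v ∈ S, (Real.log ‖1 - tg g s v.asIdeal‖ + (tg g s v.asIdeal).re))) atTop
      (𝓝 (Real.log ‖∑' I, tg g s I‖ - ∑' w : Pl K, (g w.asIdeal).re * nr w.asIdeal s)) := by
    have h1 : Tendsto (fun S : Finset (Pl K) => Real.log ‖∑' I, tg g s I‖ -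
        ∑ w ∈ S, (g w.asIdeal).re * nr w.asIdeal s) atTop
        (𝓝 (Real.log ‖∑' I, tg g s I‖ - ∑' w : Pl K, (g w.asIdeal).re * nr w.asIdeal s)) :=
      tendsto_const_nhds.sub hsumre.hasSum
    refine h1.congr (fun S => ?_)
    rw [Finset.sum_add_distrib]
    simp only [hre]
    ring
  have hlim2 := hlim.sub hlog
  rw [sub_zero] at hlim2
  have hb : ∀ S : Finset (Pl K), |(((∑ v ∈ S, Real.log ‖1 - tg g s v.asIdeal‖)
      + Real.log ‖∑' I, tg g s I‖)
        - (∑ v ∈ S, (Real.log ‖1 - tg g s v.asIdeal‖ + (tg g s v.asIdeal).re)))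
      - ((∑ v ∈ S, Real.log ‖1 - tg g s v.asIdeal‖) + Real.log ‖∑' I, tg g s I‖)|
      ≤ ∑' w : Pl K, nr w.asIdeal 2 := by
    intro S
    have h1 : (((∑ v ∈ S, Real.log ‖1 - tg g s v.asIdeal‖)
      + Real.log ‖∑' I, tg g s I‖)
        - (∑ v ∈ S, (Real.log ‖1 - tg g s v.asIdeal‖ + (tg g s v.asIdeal).re)))
      - ((∑ v ∈ S, Real.log ‖1 - tg g s v.asIdeal‖) + Real.log ‖∑' I, tg g s I‖)
      = - ∑ v ∈ S, (Real.log ‖1 - tg g s v.asIdeal‖ + (tg g s v.asIdeal).re) := by ring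
    rw [h1, abs_neg]
    calc |∑ v ∈ S, (Real.log ‖1 - tg g s v.asIdeal‖ + (tg g s v.asIdeal).re)|
        ≤ ∑ v ∈ S, |Real.log ‖1 - tg g s v.asIdeal‖ + (tg g s v.asIdeal).re| :=
          Finset.abs_sum_le_sum_abs _ _
      _ ≤ ∑ v ∈ S, nr v.asIdeal 2 := by
          refine Finset.sum_le_sum (fun v _ => (log_est (hhalf v)).trans ?_)
          refine le_trans ?_ (nr_sq_le v hs)
          exact pow_le_pow_left₀ (norm_nonneg _) (norm_tg_le hg s _) 2
      _ ≤ ∑' w : Pl K, nr w.asIdeal 2 :=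
          (summable_nr_pl K (by norm_num)).sum_le_tsum S (fun _ _ => nr_nonneg _ _)
  exact le_of_tendsto hlim2.abs (Eventually.of_forall hb)

end

end CFT
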